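import Pool.Agent.H5.BP.Main

set_option autoImplicit false

namespace Pool.Agent.H5.BP

open Complex Metric Set Filter Topology

/-- `S_main` with more information: `f` has no critical point and is not injective. -/
def S_final : Prop := ∃ f : ℂ → ℂ, IsIndestructible f ∧ ¬ IsMaximal f ∧
  (∀ z, ‖z‖ < 1 → deriv f z ≠ 0) ∧ ¬ Set.InjOn f (ball 0 1)

theorem not_injOn {f : ℂ → ℂ} (hf : IsBlaschke f) (h0 : f 0 = 0) (h1 : deriv f 0 ≠ 0)
    (h2 : ‖deriv f 0‖ < 1) : ¬ Set.InjOn f (ball 0 1) := by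
  intro hinj
  obtain ⟨θ, k, ι, a, ha, -, hprod⟩ := hf
  have h0b : (0 : ℂ) ∈ ball (0 : ℂ) 1 := mem_ball_self one_pos
  have hemp : IsEmpty ι := by
    by_contra hne
    rw [not_isEmpty_iff] at hne
    obtain ⟨i⟩ := hne
    obtain ⟨h3, h4⟩ := hprod (a i) (ha i).2
    have h5 : ∏' j, bfac (a j) (a i) = 0 :=
      tprod_of_exists_eq_zero ⟨i, by simp [bfac]⟩
    rw [h5, mul_zero] at h4
    exact (ha i).1 (hinj (by simpa using (ha i).2) h0b (h4.trans h0.symm))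
  have h3 : ∀ z, ‖z‖ < 1 → f z = Complex.exp (θ * Complex.I) * z ^ k := by
    intro z hz
    rw [(hprod z hz).2, tprod_empty, mul_one]
  have h4 : f =ᶠ[𝓝 0] fun z => Complex.exp (θ * Complex.I) * z ^ k := by
    filter_upwards [isOpen_ball.mem_nhds h0b] with z hz
    exact h3 z (by simpa using hz)
  have hk : k ≠ 0 := by
    rintro rfl
    have h5 := h3 0 (by simp)
    rw [h0, pow_zero, mul_one] at h5
    exact Complex.exp_ne_zero _ h5.symm
  have h5 : deriv f 0 = Complex.exp (θ * Complex.I) * (k * (0 : ℂ) ^ (k - 1)) := by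
    rw [h4.deriv_eq]
    have h6 := (hasDerivAt_pow k (0 : ℂ)).const_mul (Complex.exp (θ * Complex.I))
    exact h6.deriv
  rcases Nat.lt_or_ge k 2 with hk2 | hk2
  · have hk1 : k = 1 := by omega
    rw [hk1] at h5
    simp only [Nat.cast_one, Nat.sub_self, pow_zero, mul_one] at h5
    rw [h5, Complex.norm_exp_ofReal_mul_I] at h2
    exact lt_irrefl _ h2
  · apply h1
    rw [h5, zero_pow (by omega), mul_zero, mul_zero]

theorem final (h₁ : S_fun) (h₂ : S_bla) : S_final := by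
  obtain ⟨f, hf, hm, h3, h4, h5, h6⟩ : ∃ f : ℂ → ℂ, IsIndestructible f ∧ ¬ IsMaximal f ∧
      (∀ z, ‖z‖ < 1 → deriv f z ≠ 0) ∧ f 0 = 0 ∧ deriv f 0 ≠ 0 ∧ ‖deriv f 0‖ < 1 := by
    obtain ⟨F, hF, hF1, hF0, hF', hF'1, hU⟩ := h₁
    obtain ⟨h1, h2⟩ := main_of hF hF1 hF0 hF' hF'1 hU h₂
    exact ⟨F, h1, h2, hF', hF0, hF' 0 (by simp), hF'1⟩
  exact ⟨f, hf, hm, h3, not_injOn hf.1 h4 h5 h6⟩

end Pool.Agent.H5.BP
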