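import Pool.Agent.H5.BP.Basic

set_option autoImplicit false

namespace Pool.Agent.H5.BP

open Complex Metric Set Filter Topology

/-- A state of the iteration. -/
structure St where
  P : ℂ → ℂ
  R : ℝ
  b : ℝ

/-- `ε_n = 1/(n+2)` -/
noncomputable def ep (n : ℕ) : ℝ := 1 / ((n : ℝ) + 2)

theorem ep_pos (n : ℕ) : 0 < ep n := by unfold ep; positivity

theorem ep_lt_one (n : ℕ) : ep n < 1 := by
  unfold ep
  rw [div_lt_one (by positivity)]
  have : (0 : ℝ) ≤ n := Nat.cast_nonneg n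
  linarith

theorem ep_tendsto : Tendsto ep atTop (𝓝 0) := by
  have h : Tendsto (fun n : ℕ => (1 : ℝ) / ((n + 1 : ℕ) + 1)) atTop (𝓝 0) :=
    tendsto_one_div_add_atTop_nhds_zero_nat.comp (tendsto_add_atTop_nat 1)
  refine h.congr fun n => ?_
  unfold ep
  push_cast
  ring

structure Ready (n : ℕ) (s : St) : Prop where
  fb : FB s.P
  R0 : 1 / 2 ≤ s.R
  R1 : s.R < 1
  b0 : 0 < s.b
  crit : ∀ z, ‖z‖ < 1 → deriv s.P z = 0 → 1 - ep n < ‖z‖
  next : ∃ R' η' : ℝ, 1 - ep n < R' ∧ R' < 1 ∧ 0 < η' ∧ ∀ ρ' < (1 : ℝ), ∃ P' : ℂ → ℂ, FB P' ∧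
    (∀ z, ‖z‖ ≤ s.R → ‖P' z - s.P z‖ ≤ s.b / 2) ∧
    (∀ z, ‖z‖ < 1 → deriv P' z = 0 → ρ' < ‖z‖) ∧ Good P' R' η' (ep n)

structure Step (n : ℕ) (s t : St) : Prop where
  R : s.R ≤ t.R
  b : t.b ≤ s.b / 2
  R' : 1 - ep n < t.R
  near : ∀ z, ‖z‖ ≤ s.R → ‖t.P z - s.P z‖ ≤ s.b / 2
  good : ∀ g : ℂ → ℂ, DifferentiableOn ℂ g (ball 0 1) → (∀ z, ‖z‖ < 1 → ‖g z‖ < 1) →
    (∀ z, ‖z‖ ≤ t.R → ‖g z - t.P z‖ ≤ t.b) → ∀ a : ℂ, ‖a‖ ≤ 1 - ep n →
      ∃ r, 1 - ep n < r ∧ r < 1 ∧ U r a g ≤ ep n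

theorem exists_next (h₁ : S_step) (n : ℕ) (s : St) (hs : Ready n s) :
    ∃ t, Ready (n + 1) t ∧ Step n s t := by
  obtain ⟨R', η', h1, h2, h3, h4⟩ := hs.next
  set R₁ := max s.R R' with hR₁
  set b₁ := min (s.b / 2) η' with hb₁
  have hR₁1 : R₁ < 1 := max_lt hs.R1 h2
  have hR₁0 : 1 / 2 ≤ R₁ := hs.R0.trans (le_max_left _ _)
  have hb₁0 : 0 < b₁ := lt_min (half_pos hs.b0) h3
  obtain ⟨ρ, hρ, h5⟩ := h₁ R₁ (b₁ / 2) (ep (n + 1)) (by linarith) hR₁1 (half_pos hb₁0)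
    (ep_pos _) (ep_lt_one _)
  obtain ⟨P', hP', h6, h7, h8⟩ := h4 (max ρ (1 - ep (n + 1)))
    (max_lt hρ (by linarith [ep_pos (n + 1)]))
  refine ⟨⟨P', R₁, b₁⟩, ⟨hP', hR₁0, hR₁1, hb₁0, ?_, ?_⟩, ⟨le_max_left _ _, min_le_left _ _, ?_, h6, ?_⟩⟩
  · intro z hz hz0
    exact (le_max_right _ _).trans_lt (h7 z hz hz0)
  · obtain ⟨R'', η'', h9, h10, h11, h12⟩ := h5 P' hP' fun z hz hz0 =>
      (le_max_left _ _).trans_lt (h7 z hz hz0)
    exact ⟨R'', η'', h9, h10, h11, h12⟩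
  · exact h1.trans_le (le_max_right _ _)
  · intro g hg hg1 hg2 a ha
    obtain ⟨r, hr1, hr2, hr3⟩ := h8 g hg hg1 (fun z hz => (hg2 z (hz.trans (le_max_right _ _))).trans
      (min_le_right _ _)) a ha
    exact ⟨r, hr1, hr2.trans_lt h2, hr3⟩

theorem exists_start (h₁ : S_step) (h₂ : S_init) : ∃ s, Ready 0 s ∧ s.R = 1 / 2 ∧ s.b = 1 / 64 ∧
    1 / 9 ≤ ‖deriv s.P 0‖ ∧ ‖deriv s.P 0‖ ≤ 1 / 2 := by
  obtain ⟨ρ, hρ, h3⟩ := h₁ (1 / 2) (1 / 64 / 2) (ep 0) (by norm_num) (by norm_num) (by norm_num)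
    (ep_pos _) (ep_lt_one _)
  obtain ⟨P, hP, h4, h5, h6⟩ := h₂ (max ρ (1 - ep 0)) (max_lt hρ (by linarith [ep_pos 0]))
  refine ⟨⟨P, 1 / 2, 1 / 64⟩, ⟨hP, le_refl _, by norm_num, by norm_num, ?_, ?_⟩, rfl, rfl, h5, h6⟩
  · intro z hz hz0
    exact (le_max_right _ _).trans_lt (h4 z hz hz0)
  · exact h3 P hP fun z hz hz0 => (le_max_left _ _).trans_lt (h4 z hz hz0)

/-- Hurwitz: a locally uniform limit of functions that are zero-free on `|z| ≤ 1 - ε_n` is zero-free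
if it does not vanish at `0`. -/
theorem hurwitz {D : ℕ → ℂ → ℂ} {h : ℂ → ℂ} (hD : ∀ n, DifferentiableOn ℂ (D n) (ball 0 1))
    (hlim : TendstoLocallyUniformlyOn D h atTop (ball 0 1)) (h0 : h 0 ≠ 0)
    (hz : ∀ n z, ‖z‖ ≤ 1 - ep n → D n z ≠ 0) {z₀ : ℂ} (hz₀ : ‖z₀‖ < 1) : h z₀ ≠ 0 := by
  intro hcon
  have hh : DifferentiableOn ℂ h (ball 0 1) :=
    hlim.differentiableOn (Eventually.of_forall hD) isOpen_ball
  have han : AnalyticOnNhd ℂ h (ball 0 1) := hh.analyticOnNhd isOpen_ball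
  have hz₀' : z₀ ∈ ball (0 : ℂ) 1 := by simpa using hz₀
  -- isolated zero
  have h1 : ∀ᶠ w in 𝓝[≠] z₀, h w ≠ 0 := by
    rcases (han z₀ hz₀').eventually_eq_zero_or_eventually_ne_zero with h2 | h2
    · exfalso
      have := han.eqOn_zero_of_preconnected_of_eventuallyEq_zero (convex_ball (0 : ℂ) 1).isPreconnected
        hz₀' h2
      exact h0 (this (mem_ball_self one_pos))
    · exact h2
  rw [eventually_nhdsWithin_iff, Metric.eventually_nhds_iff] at h1
  obtain ⟨δ, hδ, h1⟩ := h1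
  set r := min (δ / 2) ((1 - ‖z₀‖) / 2) with hr
  have hr0 : 0 < r := lt_min (half_pos hδ) (by linarith)
  have hsub : ∀ w, ‖w - z₀‖ ≤ r → ‖w‖ ≤ (1 + ‖z₀‖) / 2 := by
    intro w hw
    have h2 : r ≤ (1 - ‖z₀‖) / 2 := min_le_right _ _
    calc ‖w‖ = ‖(w - z₀) + z₀‖ := by ring_nf
      _ ≤ ‖w - z₀‖ + ‖z₀‖ := norm_add_le _ _
      _ ≤ _ := by linarith
  have hcl : closedBall z₀ r ⊆ ball 0 1 := by
    intro w hw
    have := hsub w (by simpa [dist_eq_norm] using hw)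
    simp only [mem_ball_zero_iff]
    linarith
  -- minimum on the sphere
  obtain ⟨μ, hμ, hμ'⟩ : ∃ μ > 0, ∀ w, ‖w - z₀‖ = r → μ ≤ ‖h w‖ := by
    have hcomp : IsCompact (sphere z₀ r) := isCompact_sphere _ _
    have hne : (sphere z₀ r).Nonempty := NormedSpace.sphere_nonempty.2 hr0.le
    obtain ⟨w₁, hw₁, hmin⟩ := hcomp.exists_isMinOn hne
      ((hh.continuousOn.mono (sphere_subset_closedBall.trans hcl)).norm)
    refine ⟨‖h w₁‖, norm_pos_iff.2 ?_, fun w hw => hmin (by simpa [dist_eq_norm] using hw)⟩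
    apply h1
    · have : dist w₁ z₀ = r := mem_sphere.1 hw₁
      rw [this]
      exact (min_le_left _ _).trans_lt (by linarith)
    · intro h3
      have h4 : dist w₁ z₀ = r := mem_sphere.1 hw₁
      rw [h3, dist_self] at h4
      exact hr0.ne h4
  -- uniform closeness
  have hunif : TendstoUniformlyOn D h atTop (closedBall z₀ r) :=
    (tendstoLocallyUniformlyOn_iff_forall_isCompact isOpen_ball).1 hlim _ hcl (isCompact_closedBall _ _)
  rw [Metric.tendstoUniformlyOn_iff] at hunif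
  have h2 := hunif (μ / 2) (half_pos hμ)
  have h3 : ∀ᶠ n in atTop, ep n < (1 - ‖z₀‖) / 2 :=
    (ep_tendsto.eventually (gt_mem_nhds (by linarith)))
  obtain ⟨n, hn, hn'⟩ := (h2.and h3).exists
  have hne : ∀ w ∈ closedBall z₀ r, D n w ≠ 0 := by
    intro w hw
    apply hz
    have := hsub w (by simpa [dist_eq_norm] using hw)
    linarith
  have hdiff : DiffContOnCl ℂ (fun w => (D n w)⁻¹) (ball z₀ r) := by
    have h4 : DifferentiableOn ℂ (fun w => (D n w)⁻¹) (closedBall z₀ r) := fun w hw =>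
      ((hD n).mono hcl w hw).inv (hne w hw)
    exact (h4.mono (closure_ball_subset_closedBall)).diffContOnCl
  have h4 : ‖(D n z₀)⁻¹‖ ≤ (μ / 2)⁻¹ := by
    refine Complex.norm_le_of_forall_mem_frontier_norm_le isBounded_ball hdiff ?_
      (subset_closure (mem_ball_self hr0))
    intro w hw
    rw [frontier_ball _ hr0.ne'] at hw
    have hw' : ‖w - z₀‖ = r := by simpa [dist_eq_norm] using hw
    have h5 := hn w (sphere_subset_closedBall hw)
    rw [dist_eq_norm] at h5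
    have h6 := hμ' w hw'
    have h7 : μ / 2 ≤ ‖D n w‖ := by
      have h8 : ‖h w‖ ≤ ‖h w - D n w‖ + ‖D n w‖ := by
        calc ‖h w‖ = ‖(h w - D n w) + D n w‖ := by ring_nf
          _ ≤ _ := norm_add_le _ _
      linarith
    rw [norm_inv]
    exact inv_anti₀ (half_pos hμ) h7
  have h5 := hn z₀ (mem_closedBall_self hr0.le)
  rw [hcon, dist_zero_left] at h5
  rw [norm_inv] at h4
  have h6 : 0 < ‖D n z₀‖ := norm_pos_iff.2 (hne z₀ (mem_closedBall_self hr0.le))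
  rw [inv_le_inv₀ h6 (half_pos hμ)] at h4
  linarith

theorem fn (h₁ : S_step) (h₂ : S_init) : S_fun := by
  obtain ⟨s₀, hs₀, hR₀, hb₀, hd₀, hd₀'⟩ := exists_start h₁ h₂
  choose nx hnx1 hnx2 using exists_next h₁
  let S : ∀ n : ℕ, {s : St // Ready n s} := fun n =>
    Nat.rec ⟨s₀, hs₀⟩ (fun n s => ⟨nx n s.1 s.2, hnx1 n s.1 s.2⟩) n
  have hS0 : (S 0).1 = s₀ := rfl
  have hSt : ∀ n, Step n (S n).1 (S (n + 1)).1 := fun n => hnx2 n (S n).1 (S n).2
  set P : ℕ → ℂ → ℂ := fun n => (S n).1.P with hP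
  set R : ℕ → ℝ := fun n => (S n).1.R with hR
  set b : ℕ → ℝ := fun n => (S n).1.b with hb
  have hfb : ∀ n, FB (P n) := fun n => (S n).2.fb
  have hRm : Monotone R := monotone_nat_of_le_succ fun n => (hSt n).R
  have hR1 : ∀ n, R n < 1 := fun n => (S n).2.R1
  have hRe : ∀ n, 1 - ep n < R (n + 1) := fun n => (hSt n).R'
  have hb0 : ∀ n, 0 < b n := fun n => (S n).2.b0
  have hb1 : ∀ n, b (n + 1) ≤ b n / 2 := fun n => (hSt n).b
  have hbt : Tendsto b atTop (𝓝 0) := by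
    have h1 : ∀ n, b n ≤ b 0 * (1 / 2) ^ n := by
      intro n
      induction n with
      | zero => simp
      | succ n ih =>
        have := hb1 n
        rw [pow_succ]
        linarith
    have h2 : Tendsto (fun n : ℕ => b 0 * (1 / 2 : ℝ) ^ n) atTop (𝓝 (b 0 * 0)) :=
      (tendsto_pow_atTop_nhds_zero_of_lt_one (by norm_num) (by norm_num)).const_mul _
    rw [mul_zero] at h2
    exact squeeze_zero (fun n => (hb0 n).le) h1 h2
  have hexR : ∀ z : ℂ, ‖z‖ < 1 → ∃ n, ‖z‖ ≤ R n := by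
    intro z hz
    have h3 : ∀ᶠ n in atTop, ep n < 1 - ‖z‖ :=
      (ep_tendsto.eventually (gt_mem_nhds (by linarith)))
    obtain ⟨n, hn⟩ := h3.exists
    exact ⟨n + 1, by linarith [hRe n]⟩
  -- distances
  have hdist : ∀ n m, n ≤ m → ∀ z, ‖z‖ ≤ R n → ‖P m z - P n z‖ ≤ b n - b m := by
    intro n m hnm
    induction m, hnm using Nat.le_induction with
    | base => intro z _; simp
    | succ m hm ih =>
      intro z hz
      have h1 := ih z hz
      have h2 := (hSt m).near z (hz.trans (hRm hm))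
      have h3 := hb1 m
      calc ‖P (m + 1) z - P n z‖ = ‖(P (m + 1) z - P m z) + (P m z - P n z)‖ := by ring_nf
        _ ≤ ‖P (m + 1) z - P m z‖ + ‖P m z - P n z‖ := norm_add_le _ _
        _ ≤ b m / 2 + (b n - b m) := add_le_add h2 h1
        _ ≤ _ := by linarith
  have hdist' : ∀ n m, n ≤ m → ∀ z, ‖z‖ ≤ R n → ‖P m z - P n z‖ ≤ b n := by
    intro n m hnm z hz
    linarith [hdist n m hnm z hz, hb0 m]
  -- the limit
  have hcau : ∀ z : ℂ, ‖z‖ < 1 → CauchySeq fun n => P n z := by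
    intro z hz
    obtain ⟨n₀, hn₀⟩ := hexR z hz
    rw [Metric.cauchySeq_iff']
    intro ε hε
    obtain ⟨n₁, hn₁⟩ := ((hbt.eventually (gt_mem_nhds hε)).and (eventually_ge_atTop n₀)).exists
    refine ⟨n₁, fun m hm => ?_⟩
    rw [dist_eq_norm]
    exact (hdist' n₁ m hm z (hn₀.trans (hRm hn₁.2))).trans_lt hn₁.1
  set F : ℂ → ℂ := fun z => limUnder atTop fun n => P n z with hF
  have hlim : ∀ z : ℂ, ‖z‖ < 1 → Tendsto (fun n => P n z) atTop (𝓝 (F z)) :=
    fun z hz => (hcau z hz).tendsto_limUnder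
  have hFP : ∀ n z, ‖z‖ ≤ R n → ‖F z - P n z‖ ≤ b n := by
    intro n z hz
    have h1 : Tendsto (fun m => ‖P m z - P n z‖) atTop (𝓝 ‖F z - P n z‖) :=
      ((hlim z (hz.trans_lt (hR1 n))).sub_const _).norm
    exact le_of_tendsto h1 (eventually_atTop.2 ⟨n, fun m hm => hdist' n m hm z hz⟩)
  have hloc : TendstoLocallyUniformlyOn P F atTop (ball 0 1) := by
    rw [tendstoLocallyUniformlyOn_iff_forall_isCompact isOpen_ball]
    intro K hK hKc
    obtain ⟨n₀, hn₀⟩ : ∃ n₀, ∀ z ∈ K, ‖z‖ ≤ R n₀ := by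
      rcases K.eq_empty_or_nonempty with rfl | hne
      · exact ⟨0, fun z hz => absurd hz (notMem_empty z)⟩
      · obtain ⟨z₁, hz₁, hmax⟩ := hKc.exists_isMaxOn hne continuous_norm.continuousOn
        obtain ⟨n₀, hn₀⟩ := hexR z₁ (by simpa using hK hz₁)
        exact ⟨n₀, fun z hz => (hmax hz).trans hn₀⟩
    rw [Metric.tendstoUniformlyOn_iff]
    intro ε hε
    filter_upwards [hbt.eventually (gt_mem_nhds hε), eventually_ge_atTop n₀] with n h1 h2 z hz
    rw [dist_eq_norm]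
    exact (hFP n z ((hn₀ z hz).trans (hRm h2))).trans_lt h1
  have hFd : DifferentiableOn ℂ F (ball 0 1) :=
    hloc.differentiableOn (Eventually.of_forall fun n => (hfb n).differentiableOn) isOpen_ball
  have hF0 : F 0 = 0 := by
    have h1 := hlim 0 (by simp)
    have h2 : (fun n => P n 0) = fun _ => (0 : ℂ) := by funext n; exact (hfb n).zero
    rw [h2] at h1
    exact tendsto_nhds_unique h1 tendsto_const_nhds |>.symm ▸ rfl
  have hF1 : ∀ z, ‖z‖ < 1 → ‖F z‖ < 1 := by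
    intro z hz
    have h1 : ‖F z‖ ≤ ‖z‖ := le_of_tendsto (hlim z hz).norm
      (Eventually.of_forall fun n => (hfb n).norm_le hz)
    exact h1.trans_lt hz
  -- derivatives
  have hder : TendstoLocallyUniformlyOn (fun n => deriv (P n)) (deriv F) atTop (ball 0 1) :=
    hloc.deriv (Eventually.of_forall fun n => (hfb n).differentiableOn) isOpen_ball
  have hder0 : Tendsto (fun n => deriv (P n) 0) atTop (𝓝 (deriv F 0)) :=
    hder.tendsto_at (mem_ball_self one_pos)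
  have hclose : ∀ n, ‖deriv (P n) 0 - deriv (P 0) 0‖ ≤ 1 / 32 := by
    intro n
    have h1 : deriv (P n) 0 - deriv (P 0) 0 = deriv (fun z => P n z - P 0 z) 0 := by
      rw [deriv_fun_sub ((hfb n).differentiableAt (by simp)) ((hfb 0).differentiableAt (by simp))]
    rw [h1]
    have h2 : ‖deriv (fun z => P n z - P 0 z) 0‖ ≤ (1 / 64) / (1 / 2) := by
      refine Complex.norm_deriv_le_of_forall_mem_sphere_norm_le (by norm_num) ?_ ?_
      · refine ⟨fun z hz => ?_, ?_⟩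
        · have hz' : ‖z‖ ≤ 1 := by
            have := mem_ball_zero_iff.1 hz
            linarith
          exact (((hfb n).differentiableAt hz').sub ((hfb 0).differentiableAt hz')).differentiableWithinAt
        · have h3 : closure (ball (0 : ℂ) (1 / 2)) ⊆ closedBall 0 1 :=
            closure_ball_subset_closedBall.trans (closedBall_subset_closedBall (by norm_num))
          exact ((hfb n).continuousOn.mono h3).sub ((hfb 0).continuousOn.mono h3)
      · intro z hz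
        have h3 := hdist' 0 n (Nat.zero_le n) z (by
          have : ‖z‖ = 1 / 2 := by simpa using hz
          rw [this]
          show 1 / 2 ≤ (S 0).1.R
          rw [hS0, hR₀])
        have h4 : b 0 = 1 / 64 := by
          show (S 0).1.b = _
          rw [hS0, hb₀]
        rwa [h4] at h3
    linarith
  have hcloseF : ‖deriv F 0 - deriv (P 0) 0‖ ≤ 1 / 32 :=
    le_of_tendsto (hder0.sub_const _).norm (Eventually.of_forall hclose)
  have hP0 : P 0 = s₀.P := rfl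
  rw [hP0] at hcloseF
  have hF'0 : deriv F 0 ≠ 0 := by
    intro h
    rw [h, zero_sub, norm_neg] at hcloseF
    linarith
  refine ⟨F, hFd, hF1, hF0, ?_, ?_, ?_⟩
  · intro z hz
    refine hurwitz (fun n => ?_) hder hF'0 ?_ hz
    · exact ((hfb n).differentiableOn.analyticOnNhd isOpen_ball).deriv.differentiableOn
    · intro n w hw h0
      have h1 := (S n).2.crit w (by linarith [ep_pos n]) h0
      linarith
  · have h1 : ‖deriv F 0‖ ≤ ‖deriv F 0 - deriv s₀.P 0‖ + ‖deriv s₀.P 0‖ := by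
      calc ‖deriv F 0‖ = ‖(deriv F 0 - deriv s₀.P 0) + deriv s₀.P 0‖ := by ring_nf
        _ ≤ _ := norm_add_le _ _
    linarith
  · intro a ha ε hε r₀ hr₀
    obtain ⟨n, hn⟩ := (ep_tendsto.eventually (gt_mem_nhds
      (lt_min hε (lt_min (sub_pos.2 ha) (sub_pos.2 hr₀))))).exists
    have h1 : ep n < ε := hn.trans_le (min_le_left _ _)
    have h2 : ep n < 1 - ‖a‖ := hn.trans_le ((min_le_right _ _).trans (min_le_left _ _))
    have h3 : ep n < 1 - r₀ := hn.trans_le ((min_le_right _ _).trans (min_le_right _ _))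
    obtain ⟨r, hr1, hr2, hr3⟩ := (hSt n).good F hFd hF1 (fun z hz => hFP (n + 1) z hz) a
      (by linarith)
    exact ⟨r, by linarith, by linarith [ep_lt_one n], hr2, by linarith⟩

end Pool.Agent.H5.BP
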