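import Pool.Agent.H5.BP.Basic

set_option autoImplicit false

namespace Pool.Agent.H5.BP

open Complex Metric Set Filter Topology

theorem tau_self (w : ℂ) : tau w w = 0 := by simp [tau]

theorem tau_eq_zero {b w : ℂ} (hb : ‖b‖ < 1) (hw : ‖w‖ ≤ 1) (h : tau b w = 0) : w = b := by
  rcases div_eq_zero_iff.1 h with h1 | h1
  · exact sub_eq_zero.1 h1
  · exact absurd h1 (den_ne hb hw)

/-- Schwarz-Pick in elementary form -/
theorem third_le {y z : ℂ} (hy : ‖y‖ < 1) (hz : ‖z‖ < 1) (h : ‖tau z y‖ ≤ 1 / 2) :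
    (1 - ‖z‖) ≤ 3 * (1 - ‖y‖) := by
  have hd := den_ne hz hy.le
  have hd' : 0 < ‖1 - (starRingEnd ℂ) z * y‖ := norm_pos_iff.2 hd
  unfold tau at h
  rw [norm_div, div_le_iff₀ hd'] at h
  have hid : ‖1 - (starRingEnd ℂ) z * y‖ ^ 2 = ‖y - z‖ ^ 2 + (1 - ‖z‖ ^ 2) * (1 - ‖y‖ ^ 2) := by
    rw [← Complex.normSq_eq_norm_sq, ← Complex.normSq_eq_norm_sq, ← Complex.normSq_eq_norm_sq,
      ← Complex.normSq_eq_norm_sq]
    simp only [Complex.normSq_apply, Complex.sub_re, Complex.sub_im, Complex.mul_re, Complex.mul_im,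
      Complex.conj_re, Complex.conj_im, Complex.one_re, Complex.one_im]
    ring
  have h1 : (‖y‖ - ‖z‖) ^ 2 ≤ ‖y - z‖ ^ 2 := by
    have h2 := abs_norm_sub_norm_le y z
    rw [← sq_abs (‖y‖ - ‖z‖)]
    gcongr
  have h3 : 4 * ‖y - z‖ ^ 2 ≤ ‖1 - (starRingEnd ℂ) z * y‖ ^ 2 := by
    have h4 : 2 * ‖y - z‖ ≤ ‖1 - (starRingEnd ℂ) z * y‖ := by linarith
    nlinarith [norm_nonneg (y - z)]
  rw [hid] at h3
  have h5 : 3 * (‖y‖ - ‖z‖) ^ 2 ≤ (1 - ‖z‖ ^ 2) * (1 - ‖y‖ ^ 2) := by linarith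
  by_contra hcon
  push Not at hcon
  set u := 1 - ‖y‖ with hu
  set v := 1 - ‖z‖ with hv
  have hu0 : 0 < u := by linarith
  have hv0 : 0 < v := by linarith
  have hu1 : u ≤ 1 := by have := norm_nonneg y; linarith
  have hv1 : v ≤ 1 := by have := norm_nonneg z; linarith
  have e1 : (‖y‖ - ‖z‖) = v - u := by rw [hu, hv]; ring
  have e2 : (1 - ‖z‖ ^ 2) * (1 - ‖y‖ ^ 2) = u * v * ((2 - u) * (2 - v)) := by rw [hu, hv]; ring
  rw [e1, e2] at h5
  have h6 : u * v * ((2 - u) * (2 - v)) ≤ u * v * 4 := by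
    apply mul_le_mul_of_nonneg_left _ (by positivity)
    nlinarith
  nlinarith [mul_pos hu0 hv0]

theorem log_bound {s p q : ℝ} (hs : 1 / 2 ≤ s) (hs1 : s < 1) (hp : p < 1) (hq : q < 1)
    (h : 1 - q ≤ 3 * (1 - p)) : -Real.log (max s q) ≤ 6 * -Real.log (max s p) := by
  have hM : 1 / 2 ≤ max s q := hs.trans (le_max_left _ _)
  have hM0 : 0 < max s q := by linarith
  have hM' : 0 < max s p := lt_of_lt_of_le (by linarith) (le_max_left s p)
  have h1 : -Real.log (max s q) ≤ 2 * (1 - max s q) := by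
    by_cases hle : max s q ≤ 1
    · have h2 := Real.one_sub_inv_le_log_of_pos hM0
      have h3 : (max s q)⁻¹ - 1 ≤ 2 * (1 - max s q) := by
        have h4 : (max s q)⁻¹ ≤ 2 := by
          rw [inv_le_comm₀ hM0 (by norm_num)]
          linarith
        have h5 : (max s q)⁻¹ * max s q = 1 := inv_mul_cancel₀ hM0.ne'
        nlinarith
      linarith
    · exfalso
      push Not at hle
      rcases le_total s q with hsq | hsq
      · rw [max_eq_right hsq] at hle
        linarith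
      · rw [max_eq_left hsq] at hle
        linarith
  have h2 : 1 - max s q ≤ 3 * (1 - max s p) := by
    rcases le_total s p with hsp | hsp
    · rw [max_eq_right hsp]
      have := le_max_right s q
      linarith
    · rw [max_eq_left hsp]
      have := le_max_left s q
      linarith
  have h3 : 1 - max s p ≤ -Real.log (max s p) := by
    have := Real.log_le_sub_one_of_pos hM'
    linarith
  linarith

theorem mem_fac {f : ℂ → ℂ} (hf : FB f) {a l : ℂ} {Z : Multiset ℂ} (ha : ‖a‖ < 1) (hl : ‖l‖ = 1)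
    (hZ : ∀ w ∈ Z, ‖w‖ < 1) (h : ∀ z, ‖z‖ ≤ 1 → tau a (f z) = l * (Z.map fun w => tau w z).prod)
    {z : ℂ} : z ∈ Z ↔ ‖z‖ < 1 ∧ f z = a := by
  constructor
  · intro hz
    refine ⟨hZ z hz, ?_⟩
    have h1 := h z (hZ z hz).le
    have h2 : (Z.map fun w => tau w z).prod = 0 :=
      Multiset.prod_eq_zero (Multiset.mem_map.2 ⟨z, hz, tau_self z⟩)
    rw [h2, mul_zero] at h1
    exact tau_eq_zero ha (hf.norm_le_one (hZ z hz).le) h1
  · rintro ⟨hz, hfz⟩
    have h1 := h z hz.le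
    rw [hfz, tau_self] at h1
    rcases mul_eq_zero.1 h1.symm with h2 | h2
    · rw [h2, norm_zero] at hl
      exact absurd hl zero_ne_one
    · rw [Multiset.prod_eq_zero_iff] at h2
      obtain ⟨w, hw, hw0⟩ := Multiset.mem_map.1 h2
      rw [tau_eq_zero (hZ w hw) hz.le hw0]
      exact hw

theorem norm_prod_le {Z : Multiset ℂ} (hZ : ∀ w ∈ Z, ‖w‖ < 1) {z : ℂ} (hz : ‖z‖ < 1) :
    ‖(Z.map fun w => tau w z).prod‖ ≤ 1 := by
  induction Z using Multiset.induction_on with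
  | empty => simp
  | cons w Z ih =>
    rw [Multiset.map_cons, Multiset.prod_cons, norm_mul]
    have h1 := norm_tau_lt (hZ w (Multiset.mem_cons_self w Z)) hz
    have h2 := ih fun w hw => hZ w (Multiset.mem_cons_of_mem hw)
    exact mul_le_one₀ h1.le (norm_nonneg _) h2

/-- zeros over a value with nonzero derivatives are simple -/
theorem nodup_fac {f : ℂ → ℂ} (hf : FB f) {a l : ℂ} {Z : Multiset ℂ} (ha : ‖a‖ < 1) (hl : ‖l‖ = 1)
    (hZ : ∀ w ∈ Z, ‖w‖ < 1) (h : ∀ z, ‖z‖ ≤ 1 → tau a (f z) = l * (Z.map fun w => tau w z).prod)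
    (hd : ∀ z, ‖z‖ < 1 → f z = a → deriv f z ≠ 0) : Z.Nodup := by
  rw [Multiset.nodup_iff_ne_cons_cons]
  intro z Z' hZZ
  have hzZ : z ∈ Z := by rw [hZZ]; simp
  have hz := hZ z hzZ
  have hfz : f z = a := ((mem_fac hf ha hl hZ h).1 hzZ).2
  have hZ' : ∀ w ∈ Z', ‖w‖ < 1 := fun w hw => hZ w (by rw [hZZ]; simp [hw])
  -- the derivative of `tau a ∘ f` at `z`
  have h1 : HasDerivAt (fun y => tau a (f y))
      ((1 - (starRingEnd ℂ) a * a) / (1 - (starRingEnd ℂ) a * f z) ^ 2 * deriv f z) z :=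
    (hasDerivAt_tau ha (hf.norm_le_one hz.le)).comp z (hf.differentiableAt hz.le).hasDerivAt
  have h2 : HasDerivAt (fun y => tau a (f y)) 0 z := by
    rw [hasDerivAt_iff_isLittleO]
    have h3 : (fun y => tau a (f y) - tau a (f z) - (y - z) • (0 : ℂ)) =O[𝓝 z]
        fun y => ‖y - z‖ ^ 2 := by
      refine Asymptotics.IsBigO.of_bound ((1 / (1 - ‖z‖)) ^ 2) ?_
      filter_upwards [isOpen_ball.mem_nhds (by simpa using hz : z ∈ ball (0 : ℂ) 1)] with y hy
      have hy1 : ‖y‖ < 1 := by simpa using hy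
      rw [smul_zero, sub_zero, hfz, tau_self, sub_zero, h y hy1.le, hZZ, Multiset.map_cons,
        Multiset.map_cons, Multiset.prod_cons, Multiset.prod_cons, norm_mul, norm_mul, norm_mul, hl,
        one_mul]
      have h4 : ‖tau z y‖ ≤ 1 / (1 - ‖z‖) * ‖y - z‖ := by
        unfold tau
        rw [norm_div, div_eq_inv_mul, one_div]
        apply mul_le_mul_of_nonneg_right _ (norm_nonneg _)
        apply inv_anti₀ (by linarith)
        have h5 : ‖(starRingEnd ℂ) z * y‖ ≤ ‖z‖ := by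
          rw [norm_mul, RCLike.norm_conj]
          nlinarith [norm_nonneg z, norm_nonneg y]
        have h6 := norm_sub_norm_le (1 : ℂ) ((starRingEnd ℂ) z * y)
        rw [norm_one] at h6
        linarith
      have h5 := norm_prod_le hZ' hy1
      rw [norm_pow, norm_norm, ← mul_pow, ← mul_assoc]
      calc ‖tau z y‖ * ‖tau z y‖ * ‖(Z'.map fun w => tau w y).prod‖ ≤ ‖tau z y‖ * ‖tau z y‖ * 1 := by
            gcongr
        _ = ‖tau z y‖ ^ 2 := by ring
        _ ≤ _ := by gcongr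
    exact h3.trans_isLittleO (Asymptotics.isLittleO_pow_sub_sub z (by norm_num))
  have h3 := h1.unique h2
  rcases mul_eq_zero.1 h3 with h4 | h4
  · rcases div_eq_zero_iff.1 h4 with h5 | h5
    · exact den_ne ha ha.le h5
    · exact den_ne ha (hf.norm_le_one hz.le) (pow_eq_zero_iff (two_ne_zero) |>.1 h5)
  · exact hd z hz hfz h4

theorem inv_deriv {f g : ℂ → ℂ} (hf : FB f) {w : ℂ} {t : ℝ}
    (hg : DifferentiableOn ℂ g (ball w t)) (hg1 : ∀ x ∈ ball w t, ‖g x‖ < 1 ∧ f (g x) = x)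
    {x : ℂ} (hx : x ∈ ball w t) : deriv f (g x) ≠ 0 := by
  have h3 : HasDerivAt g (deriv g x) x := (hg.differentiableAt (isOpen_ball.mem_nhds hx)).hasDerivAt
  have h4 : HasDerivAt f (deriv f (g x)) (g x) :=
    (hf.differentiableAt (hg1 x hx).1.le).hasDerivAt
  have h5 : HasDerivAt (f ∘ g) (deriv f (g x) * deriv g x) x := h4.comp _ h3
  have h6 : HasDerivAt (f ∘ g) 1 x := by
    refine (hasDerivAt_id x).congr_of_eventuallyEq ?_
    filter_upwards [isOpen_ball.mem_nhds hx] with y hy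
    exact (hg1 y hy).2
  have h7 := h5.unique h6
  intro h0
  rw [h0, zero_mul] at h7
  exact zero_ne_one h7

theorem harn (hfac : S_fac) (havg : S_avg) : S_harn := by
  intro A ρ ψ hψ m w w' t s ht hball hA hww hs hs1
  set f := ψ m with hfdef
  have hf : FB f := hψ.fb m
  have hwb : w ∈ ball w t := mem_ball_self ht
  have hw : ‖w‖ < 1 := by simpa using hball hwb
  have hw'b : w' ∈ ball w t := by
    rw [mem_ball, dist_eq_norm]
    linarith
  have hw' : ‖w'‖ < 1 := by simpa using hball hw'b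
  obtain ⟨Z, l, hl, hZ, hZf⟩ := hfac f hf w hw
  obtain ⟨Z', l', hl', hZ', hZf'⟩ := hfac f hf w' hw'
  have hs0 : 0 < s := by linarith
  have hU : U s w f = (Z.map fun z => -Real.log (max s ‖z‖)).sum :=
    havg Z l _ hl hZ (fun z hz => hZf z hz.le) s hs0 hs1
  have hU' : U s w' f = (Z'.map fun z => -Real.log (max s ‖z‖)).sum :=
    havg Z' l' _ hl' hZ' (fun z hz => hZf' z hz.le) s hs0 hs1
  -- branches
  have hbr : ∀ z : ℂ, ∃ g : ℂ → ℂ, z ∈ Z → DifferentiableOn ℂ g (ball w t) ∧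
      (∀ x ∈ ball w t, ‖g x‖ < 1 ∧ f (g x) = x) ∧ g w = z := by
    intro z
    by_cases hz : z ∈ Z
    · obtain ⟨h1, h2⟩ := (mem_fac hf hw hl hZ hZf).1 hz
      obtain ⟨g, hg, hg1, hg2⟩ := hψ.inv m w t hball hA z h1 (by
        show f z ∈ ball w t
        rw [h2]; exact hwb)
      refine ⟨g, fun _ => ⟨hg, hg1, ?_⟩⟩
      rw [← h2]
      exact hg2
    · exact ⟨fun x => x, fun h => absurd h hz⟩
  choose g hg using hbr
  have hnod : Z.Nodup := by
    refine nodup_fac hf hw hl hZ hZf fun z hz hfz => ?_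
    have hzZ : z ∈ Z := (mem_fac hf hw hl hZ hZf).2 ⟨hz, hfz⟩
    obtain ⟨h1, h2, h3⟩ := hg z hzZ
    have h4 := inv_deriv hf h1 h2 hwb
    rwa [h3] at h4
  -- the map `φ`
  have hφ : ∀ z ∈ Z, g z w' ∈ Z' := by
    intro z hz
    obtain ⟨h1, h2, h3⟩ := hg z hz
    exact (mem_fac hf hw' hl' hZ' hZf').2 (h2 w' hw'b)
  have hinj : ∀ z ∈ Z, ∀ y ∈ Z, g z w' = g y w' → z = y := by
    intro z hz y hy hzy
    obtain ⟨h1, h2, h3⟩ := hg z hz
    obtain ⟨k1, k2, k3⟩ := hg y hy
    have hder := inv_deriv hf h1 h2 hw'b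
    have hstr : HasStrictDerivAt f (deriv f (g z w')) (g z w') :=
      (hf.an (g z w') (by simpa using (h2 w' hw'b).1.le)).hasStrictDerivAt
    have hloc : ∀ᶠ x in 𝓝 w', g z x = g y x := by
      have h4 := hstr.eventually_left_inverse hder
      have h5 : Tendsto (g z) (𝓝 w') (𝓝 (g z w')) :=
        (h1.differentiableAt (isOpen_ball.mem_nhds hw'b)).continuousAt
      have h6 : Tendsto (g y) (𝓝 w') (𝓝 (g z w')) := by
        rw [hzy]
        exact (k1.differentiableAt (isOpen_ball.mem_nhds hw'b)).continuousAt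
      filter_upwards [h5.eventually h4, h6.eventually h4, isOpen_ball.mem_nhds hw'b] with x a1 a2 a3
      rw [← a1, ← a2, (h2 x a3).2, (k2 x a3).2]
    have h7 : EqOn (g z) (g y) (ball w t) :=
      (h1.analyticOnNhd isOpen_ball).eqOn_of_preconnected_of_eventuallyEq
        (k1.analyticOnNhd isOpen_ball) (convex_ball w t).isPreconnected hw'b hloc
    rw [← h3, ← k3]
    exact h7 hwb
  -- pointwise estimate
  have hpt : ∀ z ∈ Z, -Real.log (max s ‖z‖) ≤ 6 * -Real.log (max s ‖g z w'‖) := by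
    intro z hz
    obtain ⟨h1, h2, h3⟩ := hg z hz
    have hz1 : ‖z‖ < 1 := hZ z hz
    have hy1 : ‖g z w'‖ < 1 := (h2 w' hw'b).1
    apply log_bound hs hs1 hy1 hz1
    apply third_le hy1 hz1
    have hd : DifferentiableOn ℂ (fun x => tau z (g z x)) (ball w t) := by
      intro x hx
      exact ((hasDerivAt_tau hz1 (h2 x hx).1.le).comp x
        (h1.differentiableAt (isOpen_ball.mem_nhds hx)).hasDerivAt).differentiableAt.differentiableWithinAt
    have h0 : tau z (g z w) = 0 := by rw [h3, tau_self]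
    have hm : MapsTo (fun x => tau z (g z x)) (ball w t) (closedBall (tau z (g z w)) 1) := by
      intro x hx
      rw [h0]
      simpa using (norm_tau_lt hz1 (h2 x hx).1).le
    have h4 := Complex.dist_le_div_mul_dist_of_mapsTo_ball hd hm hw'b
    simp only [h0, dist_zero_right] at h4
    refine h4.trans ?_
    rw [dist_eq_norm, one_div, ← div_eq_inv_mul, div_le_iff₀ ht]
    linarith
  -- sums
  have hnn : ∀ y ∈ Z', 0 ≤ -Real.log (max s ‖y‖) := by
    intro y hy
    have h1 : max s ‖y‖ ≤ 1 := max_le hs1.le (hZ' y hy).le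
    have h2 : 0 ≤ max s ‖y‖ := hs0.le.trans (le_max_left _ _)
    linarith [Real.log_nonpos h2 h1]
  rw [hU, hU']
  classical
  have e1 : (Z.map fun z => -Real.log (max s ‖z‖)).sum =
      ∑ z ∈ Z.toFinset, -Real.log (max s ‖z‖) := by
    rw [Finset.sum_multiset_map_count]
    refine Finset.sum_congr rfl fun z hz => ?_
    rw [Multiset.count_eq_one_of_mem hnod (Multiset.mem_toFinset.1 hz), one_smul]
  have e2 : ∑ y ∈ Z'.toFinset, -Real.log (max s ‖y‖) ≤
      (Z'.map fun z => -Real.log (max s ‖z‖)).sum := by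
    rw [Finset.sum_multiset_map_count]
    refine Finset.sum_le_sum fun y hy => ?_
    have h1 : 1 ≤ Z'.count y := Multiset.one_le_count_iff_mem.2 (Multiset.mem_toFinset.1 hy)
    have h2 := hnn y (Multiset.mem_toFinset.1 hy)
    rw [nsmul_eq_mul]
    have h3 : (1 : ℝ) ≤ (Z'.count y : ℝ) := by exact_mod_cast h1
    nlinarith
  have e3 : ∑ z ∈ Z.toFinset, -Real.log (max s ‖g z w'‖) ≤
      ∑ y ∈ Z'.toFinset, -Real.log (max s ‖y‖) := by
    have h1 : ∑ z ∈ Z.toFinset, -Real.log (max s ‖g z w'‖) =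
        ∑ y ∈ Z.toFinset.image (fun z => g z w'), -Real.log (max s ‖y‖) := by
      rw [Finset.sum_image]
      intro z hz y hy hzy
      exact hinj z (by simpa using hz) y (by simpa using hy) hzy
    rw [h1]
    refine Finset.sum_le_sum_of_subset_of_nonneg ?_ fun y hy _ => hnn y (Multiset.mem_toFinset.1 hy)
    intro y hy
    obtain ⟨z, hz, rfl⟩ := Finset.mem_image.1 hy
    exact Multiset.mem_toFinset.2 (hφ z (Multiset.mem_toFinset.1 hz))
  rw [e1]
  calc ∑ z ∈ Z.toFinset, -Real.log (max s ‖z‖)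
      ≤ ∑ z ∈ Z.toFinset, 6 * -Real.log (max s ‖g z w'‖) :=
        Finset.sum_le_sum fun z hz => hpt z (Multiset.mem_toFinset.1 hz)
    _ = 6 * ∑ z ∈ Z.toFinset, -Real.log (max s ‖g z w'‖) := by rw [Finset.mul_sum]
    _ ≤ _ := by linarith

end Pool.Agent.H5.BP
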