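import Pool.Agent.H5.BP.Stm

set_option autoImplicit false

namespace Pool.Agent.H5.BP

open Complex Metric Set Filter Topology

theorem den_ne {b w : ℂ} (hb : ‖b‖ < 1) (hw : ‖w‖ ≤ 1) : 1 - (starRingEnd ℂ) b * w ≠ 0 := by
  intro h
  have h1 : (starRingEnd ℂ) b * w = 1 := (sub_eq_zero.1 h).symm
  have h2 : ‖(starRingEnd ℂ) b * w‖ = 1 := by rw [h1, norm_one]
  rw [norm_mul, RCLike.norm_conj] at h2
  nlinarith [norm_nonneg b, norm_nonneg w]

theorem hasDerivAt_tau {b w : ℂ} (hb : ‖b‖ < 1) (hw : ‖w‖ ≤ 1) :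
    HasDerivAt (tau b) ((1 - (starRingEnd ℂ) b * b) / (1 - (starRingEnd ℂ) b * w) ^ 2) w := by
  have h1 : HasDerivAt (fun z : ℂ => z - b) 1 w := (hasDerivAt_id w).sub_const b
  have h2 : HasDerivAt (fun z : ℂ => 1 - (starRingEnd ℂ) b * z) (-(starRingEnd ℂ) b) w := by
    simpa using ((hasDerivAt_id w).const_mul ((starRingEnd ℂ) b)).const_sub 1
  have h3 := h1.div h2 (den_ne hb hw)
  have e : (1 - (starRingEnd ℂ) b * b) / (1 - (starRingEnd ℂ) b * w) ^ 2 =
      (1 * (1 - (starRingEnd ℂ) b * w) - (w - b) * -(starRingEnd ℂ) b) /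
        (1 - (starRingEnd ℂ) b * w) ^ 2 := by
    congr 1
    ring
  rw [e]
  exact h3

theorem norm_tau_lt {b w : ℂ} (hb : ‖b‖ < 1) (hw : ‖w‖ < 1) : ‖tau b w‖ < 1 := by
  unfold tau
  have hd := den_ne hb hw.le
  rw [norm_div, div_lt_one (norm_pos_iff.2 hd)]
  have h1 : ‖w - b‖ ^ 2 < ‖1 - (starRingEnd ℂ) b * w‖ ^ 2 := by
    rw [← Complex.normSq_eq_norm_sq, ← Complex.normSq_eq_norm_sq]
    have hb2 : Complex.normSq b < 1 := by
      rw [Complex.normSq_eq_norm_sq]; nlinarith [norm_nonneg b]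
    have hw2 : Complex.normSq w < 1 := by
      rw [Complex.normSq_eq_norm_sq]; nlinarith [norm_nonneg w]
    simp only [Complex.normSq_apply, Complex.sub_re, Complex.sub_im, Complex.mul_re, Complex.mul_im,
      Complex.conj_re, Complex.conj_im, Complex.one_re, Complex.one_im] at hb2 hw2 ⊢
    nlinarith [mul_pos (sub_pos.2 hb2) (sub_pos.2 hw2)]
  exact lt_of_pow_lt_pow_left₀ 2 (norm_nonneg _) h1

theorem main_of {F : ℂ → ℂ} (hF : DifferentiableOn ℂ F (ball 0 1)) (hF1 : ∀ z, ‖z‖ < 1 → ‖F z‖ < 1)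
    (hF0 : F 0 = 0) (hF' : ∀ z, ‖z‖ < 1 → deriv F z ≠ 0) (hF'1 : ‖deriv F 0‖ < 1)
    (hU : ∀ a : ℂ, ‖a‖ < 1 → ∀ ε > (0 : ℝ), ∀ r₀ < (1 : ℝ), ∃ r, r₀ < r ∧ 0 < r ∧ r < 1 ∧ U r a F ≤ ε)
    (h₂ : S_bla) : IsIndestructible F ∧ ¬ IsMaximal F := by
  have hball : ∀ {z : ℂ}, ‖z‖ < 1 ↔ z ∈ ball (0 : ℂ) 1 := by intro z; simp
  -- `F` takes a value different from any given one
  have hnc : ∀ b : ℂ, ∃ z, ‖z‖ < 1 ∧ F z ≠ b := by
    intro b
    by_contra hcon
    push Not at hcon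
    apply hF' 0 (by simp)
    have : F =ᶠ[𝓝 0] fun _ => b := by
      filter_upwards [isOpen_ball.mem_nhds (hball.1 (by simp : ‖(0 : ℂ)‖ < 1))] with z hz
      exact hcon z (hball.2 hz)
    rw [this.deriv_eq, deriv_const]
  have key : ∀ c b : ℂ, ‖c‖ = 1 → ‖b‖ < 1 → IsBlaschke fun z => c * tau b (F z) := by
    intro c b hc hb
    apply h₂
    · intro z hz
      have hz1 : ‖z‖ < 1 := hball.2 hz
      have h1 := ((hasDerivAt_tau hb (hF1 z hz1).le).comp z
        ((hF z hz).differentiableAt (isOpen_ball.mem_nhds hz)).hasDerivAt).differentiableAt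
      exact ((h1.const_mul c)).differentiableWithinAt
    · intro z hz
      rw [norm_mul, hc, one_mul]
      exact norm_tau_lt hb (hF1 z hz)
    · obtain ⟨z, hz, hzb⟩ := hnc b
      refine ⟨z, hz, mul_ne_zero ?_ ?_⟩
      · intro h; rw [h, norm_zero] at hc; exact zero_ne_one hc
      · exact div_ne_zero (sub_ne_zero.2 hzb) (den_ne hb (hF1 z hz).le)
    · intro ε hε r₀ hr₀
      obtain ⟨r, h1, h2, h3, h4⟩ := hU b hb ε hε r₀ hr₀
      refine ⟨r, h1, h2, h3, ?_⟩
      have : (fun z => -Real.log ‖c * tau b (F z)‖) = fun z => -Real.log ‖tau b (F z)‖ := by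
        funext z; rw [norm_mul, hc, one_mul]
      rw [this]
      exact h4
  refine ⟨⟨?_, key⟩, ?_⟩
  · have h := key 1 0 norm_one (by simp)
    have e : (fun z => 1 * tau 0 (F z)) = F := by funext z; simp [tau]
    rwa [e] at h
  · rintro ⟨C, -, G, ⟨⟨hG, hG1, hGC⟩, hmax⟩, c, b, hc, hb, hFG⟩
    have hc0 : c ≠ 0 := by intro h; rw [h, norm_zero] at hc; exact zero_ne_one hc
    -- derivative of `F`
    have hder : ∀ z, ‖z‖ < 1 → deriv F z =
        c * ((1 - (starRingEnd ℂ) b * b) / (1 - (starRingEnd ℂ) b * G z) ^ 2 * deriv G z) := by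
      intro z hz
      have h1 : F =ᶠ[𝓝 z] fun z => c * tau b (G z) := by
        filter_upwards [isOpen_ball.mem_nhds (hball.1 hz)] with y hy
        exact hFG y (hball.2 hy)
      rw [h1.deriv_eq]
      have h2 := ((hasDerivAt_tau hb (hG1 z hz)).comp z
        ((hG z (hball.1 hz)).differentiableAt (isOpen_ball.mem_nhds (hball.1 hz))).hasDerivAt)
      exact (h2.const_mul c).deriv
    have hG' : ∀ z, ‖z‖ < 1 → deriv G z ≠ 0 := by
      intro z hz h0
      apply hF' z hz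
      rw [hder z hz, h0, mul_zero, mul_zero]
    have hC : ∀ z, ‖z‖ < 1 → C z = 0 := by
      intro z hz
      have h1 := hGC z hz
      have h2 : AnalyticAt ℂ (deriv G) z :=
        ((hG.analyticOnNhd isOpen_ball) z (hball.1 hz)).deriv
      rw [h2.analyticOrderAt_eq_zero.2 (hG' z hz)] at h1
      simpa using h1
    -- the identity is admissible
    have hid : Adm C (fun z => z) := by
      refine ⟨differentiableOn_id, fun z hz => hz.le, fun z hz => ?_⟩
      rw [hC z hz]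
      simp
    have h1 := hmax _ hid
    rw [hC 0 (by simp)] at h1
    simp only [zero_add, iteratedDeriv_one] at h1
    rw [deriv_id''] at h1
    have h2 : 1 ≤ ‖deriv G 0‖ := by
      have h3 := Complex.re_le_norm (deriv G 0)
      simp only [Complex.one_re] at h1
      linarith
    -- `G 0 = b`
    have hG0 : G 0 = b := by
      have h3 := hFG 0 (by simp)
      rw [hF0] at h3
      rcases mul_eq_zero.1 h3.symm with h4 | h4
      · exact absurd h4 hc0
      · rcases div_eq_zero_iff.1 h4 with h5 | h5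
        · exact sub_eq_zero.1 h5
        · exact absurd h5 (den_ne hb (hG1 0 (by simp)))
    have h3 := hder 0 (by simp)
    rw [hG0] at h3
    have hbb : (starRingEnd ℂ) b * b = ((‖b‖ ^ 2 : ℝ) : ℂ) := by
      rw [mul_comm, Complex.mul_conj, Complex.normSq_eq_norm_sq]
    have h4 : (1 - (starRingEnd ℂ) b * b) / (1 - (starRingEnd ℂ) b * b) ^ 2 =
        (((1 - ‖b‖ ^ 2)⁻¹ : ℝ) : ℂ) := by
      have h5 : (1 - (starRingEnd ℂ) b * b) ≠ 0 := den_ne hb hb.le
      rw [hbb] at h5 ⊢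
      push_cast at h5 ⊢
      field_simp
    rw [h4] at h3
    have hb2 : 0 < 1 - ‖b‖ ^ 2 := by nlinarith [norm_nonneg b]
    have h5 : ‖deriv F 0‖ = (1 - ‖b‖ ^ 2)⁻¹ * ‖deriv G 0‖ := by
      rw [h3, norm_mul, norm_mul, hc, one_mul, Complex.norm_real, Real.norm_eq_abs,
        abs_of_pos (inv_pos.2 hb2)]
    have h6 : 1 ≤ (1 - ‖b‖ ^ 2)⁻¹ := by
      rw [one_le_inv₀ hb2]
      nlinarith [norm_nonneg b]
    have h7 : 1 ≤ ‖deriv F 0‖ := by
      rw [h5]
      nlinarith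
    linarith

theorem main (h₁ : S_fun) (h₂ : S_bla) : S_main := by
  obtain ⟨F, hF, hF1, hF0, hF', hF'1, hU⟩ := h₁
  exact ⟨F, main_of hF hF1 hF0 hF' hF'1 hU h₂⟩

end Pool.Agent.H5.BP
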