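import Pool.Agent.H5.BP.Main

set_option autoImplicit false

namespace Pool.Agent.H5.BP

open Complex Metric Set Filter Topology

variable {f g : ℂ → ℂ}

theorem FB.differentiableAt (hf : FB f) {z : ℂ} (hz : ‖z‖ ≤ 1) : DifferentiableAt ℂ f z :=
  (hf.an z (by simpa using hz)).differentiableAt

theorem FB.differentiableOn (hf : FB f) : DifferentiableOn ℂ f (ball 0 1) := fun z hz =>
  (hf.differentiableAt (by simpa using (mem_ball_zero_iff.1 hz).le)).differentiableWithinAt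

theorem FB.continuousOn (hf : FB f) : ContinuousOn f (closedBall 0 1) := hf.an.continuousOn

theorem FB.norm_le_one (hf : FB f) {z : ℂ} (hz : ‖z‖ ≤ 1) : ‖f z‖ ≤ 1 := by
  have h1 : DiffContOnCl ℂ f (ball 0 1) := by
    refine ⟨hf.differentiableOn, ?_⟩
    rw [closure_ball (0 : ℂ) one_ne_zero]
    exact hf.continuousOn
  refine Complex.norm_le_of_forall_mem_frontier_norm_le isBounded_ball h1 ?_ ?_
  · intro w hw
    rw [frontier_ball (0 : ℂ) one_ne_zero] at hw
    exact (hf.uni w (by simpa using hw)).le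
  · rw [closure_ball (0 : ℂ) one_ne_zero]
    simpa using hz

theorem FB.not_const (hf : FB f) (c : ℂ) : ¬ ∀ z, ‖z‖ < 1 → f z = c := by
  intro h
  have h0 : c = 0 := by rw [← h 0 (by simp), hf.zero]
  have h1 : EqOn f (fun _ => c) (closure (ball 0 1)) := by
    refine Set.EqOn.of_subset_closure (s := ball (0 : ℂ) 1) (fun z hz => h z (by simpa using hz)) ?_
      continuousOn_const subset_closure (subset_refl _)
    rw [closure_ball (0 : ℂ) one_ne_zero]
    exact hf.continuousOn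
  have h2 : f 1 = c := h1 (by rw [closure_ball (0 : ℂ) one_ne_zero]; simp)
  have h3 := hf.uni 1 (by simp)
  rw [h2, h0, norm_zero] at h3
  exact zero_ne_one h3

theorem FB.norm_lt_one (hf : FB f) {z : ℂ} (hz : ‖z‖ < 1) : ‖f z‖ < 1 := by
  refine lt_of_le_of_ne (hf.norm_le_one hz.le) ?_
  intro h
  have h1 : IsMaxOn (norm ∘ f) (ball 0 1) z := by
    intro w hw
    show ‖f w‖ ≤ ‖f z‖
    rw [h]
    exact hf.norm_le_one (by simpa using (mem_ball_zero_iff.1 hw).le)
  have h2 := Complex.eqOn_of_isPreconnected_of_isMaxOn_norm (convex_ball (0 : ℂ) 1).isPreconnected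
    isOpen_ball hf.differentiableOn (by simpa using hz) h1
  exact hf.not_const (f z) fun w hw => h2 (by simpa using hw)

theorem FB.norm_le (hf : FB f) {z : ℂ} (hz : ‖z‖ < 1) : ‖f z‖ ≤ ‖z‖ := by
  have h1 : MapsTo f (ball 0 1) (ball 0 1) := fun w hw => by
    simpa using hf.norm_lt_one (by simpa using hw)
  exact Complex.norm_le_norm_of_mapsTo_ball hf.differentiableOn (h1.mono_right ball_subset_closedBall)
    hf.zero hz

theorem FB.comp (hf : FB f) (hg : FB g) : FB (f ∘ g) where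
  an := by
    intro z hz
    have h1 : g z ∈ closedBall (0 : ℂ) 1 := by
      simpa using hg.norm_le_one (by simpa using hz)
    exact (hf.an (g z) h1).comp (hg.an z hz)
  uni := fun z hz => hf.uni _ (hg.uni z hz)
  zero := by simp [hg.zero, hf.zero]

theorem FB.deriv_not_zero (hf : FB f) : ¬ ∀ z, ‖z‖ < 1 → deriv f z = 0 := by
  intro h
  apply hf.not_const 0
  intro z hz
  have h1 := (convex_ball (0 : ℂ) 1).norm_image_sub_le_of_norm_deriv_le (f := f) (C := 0)
    (fun w hw => hf.differentiableAt (by simpa using (mem_ball_zero_iff.1 hw).le))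
    (fun w hw => by rw [h w (by simpa using hw), norm_zero]) (mem_ball_self one_pos)
    (by simpa using hz : z ∈ ball (0 : ℂ) 1)
  rw [hf.zero, zero_mul, sub_zero] at h1
  exact norm_le_zero_iff.1 h1

/-- The critical points of a finite Blaschke product in the closed disk form a finite set. -/
theorem FB.crit_finite' (hf : FB f) : {z : ℂ | ‖z‖ ≤ 1 ∧ deriv f z = 0}.Finite := by
  by_contra hinf
  have h1 : {z : ℂ | ‖z‖ ≤ 1 ∧ deriv f z = 0} ⊆ closedBall (0 : ℂ) 1 := fun z hz => by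
    simpa using hz.1
  obtain ⟨z, hz, hacc⟩ := Set.Infinite.exists_accPt_of_subset_isCompact hinf
    (isCompact_closedBall (0 : ℂ) 1) h1
  have h2 : AnalyticOnNhd ℂ (deriv f) (closedBall 0 1) := fun w hw => (hf.an w hw).deriv
  have h3 : ∃ᶠ w in 𝓝[≠] z, deriv f w = 0 := by
    rw [accPt_iff_frequently_nhdsNE] at hacc
    exact hacc.mono fun w hw => hw.2
  have h4 := h2.eqOn_zero_of_preconnected_of_frequently_eq_zero
    (convex_closedBall (0 : ℂ) 1).isPreconnected hz h3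
  exact hf.deriv_not_zero fun w hw => h4 (by simpa using hw.le)

theorem FB.crit_finite (hf : FB f) : {z : ℂ | ‖z‖ < 1 ∧ deriv f z = 0}.Finite :=
  hf.crit_finite'.subset fun _ hz => ⟨hz.1.le, hz.2⟩

/-- Cauchy estimate. -/
theorem FB.norm_deriv_le (hf : FB f) {z : ℂ} (hz : ‖z‖ < 1) : ‖deriv f z‖ ≤ 1 / (1 - ‖z‖) := by
  have h1 : 0 < 1 - ‖z‖ := by linarith
  refine Complex.norm_deriv_le_of_forall_mem_sphere_norm_le (R := 1 - ‖z‖) (C := 1) h1 ?_ ?_
  · have hsub : closedBall z (1 - ‖z‖) ⊆ closedBall (0 : ℂ) 1 := by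
      intro w hw
      rw [mem_closedBall_zero_iff]
      rw [mem_closedBall, dist_eq_norm] at hw
      calc ‖w‖ = ‖(w - z) + z‖ := by ring_nf
        _ ≤ ‖w - z‖ + ‖z‖ := norm_add_le _ _
        _ ≤ 1 := by linarith
    refine ⟨fun w hw => (hf.differentiableAt ?_).differentiableWithinAt, ?_⟩
    · have := hsub (ball_subset_closedBall hw)
      simpa using this
    · exact hf.continuousOn.mono ((closure_ball_subset_closedBall).trans hsub)
  · intro w hw
    apply hf.norm_le_one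
    have h2 : ‖w - z‖ = 1 - ‖z‖ := by simpa [dist_eq_norm] using hw
    calc ‖w‖ = ‖(w - z) + z‖ := by ring_nf
      _ ≤ ‖w - z‖ + ‖z‖ := norm_add_le _ _
      _ ≤ 1 := by linarith

theorem FB.lipschitz (hf : FB f) {R : ℝ} (hR : R < 1) {x y : ℂ} (hx : ‖x‖ ≤ R) (hy : ‖y‖ ≤ R) :
    ‖f x - f y‖ ≤ 1 / (1 - R) * ‖x - y‖ := by
  refine (convex_closedBall (0 : ℂ) R).norm_image_sub_le_of_norm_deriv_le (f := f)
    (fun w hw => hf.differentiableAt ?_) (fun w hw => ?_) (by simpa using hy) (by simpa using hx)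
  · have : ‖w‖ ≤ R := by simpa using hw
    linarith
  · have h1 : ‖w‖ ≤ R := by simpa using hw
    refine (hf.norm_deriv_le (by linarith)).trans ?_
    gcongr

/-- critical points of a composition with a term of a resolving sequence -/
theorem Resolves.deriv_ne {A : Set ℂ} {ρ : ℝ} {ψ : ℕ → ℂ → ℂ} (h : Resolves A ρ ψ)
    (hA : IsClosed A ∨ A.Finite) (m : ℕ) {z : ℂ} (hz : ‖z‖ < 1) (hzA : ψ m z ∉ A) :
    deriv (ψ m) z ≠ 0 := by
  have hAc : IsClosed A := hA.elim id Set.Finite.isClosed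
  have h1 : ‖ψ m z‖ < 1 := (h.fb m).norm_lt_one hz
  have h2 : ball (0 : ℂ) 1 ∩ Aᶜ ∈ 𝓝 (ψ m z) :=
    (isOpen_ball.inter hAc.isOpen_compl).mem_nhds ⟨by simpa using h1, hzA⟩
  obtain ⟨s, hs, hsub⟩ := Metric.mem_nhds_iff.1 h2
  obtain ⟨g, hg, hg1, hg2⟩ := h.inv m (ψ m z) s (fun x hx => (hsub hx).1)
    (fun x hx => (hsub hx).2) z hz (mem_ball_self hs)
  have h3 : HasDerivAt g (deriv g (ψ m z)) (ψ m z) :=
    (hg.differentiableAt (isOpen_ball.mem_nhds (mem_ball_self hs))).hasDerivAt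
  have h4 : HasDerivAt (ψ m) (deriv (ψ m) z) (g (ψ m z)) := by
    rw [hg2]
    exact ((h.fb m).differentiableAt hz.le).hasDerivAt
  have h5 : HasDerivAt (ψ m ∘ g) (deriv (ψ m) z * deriv g (ψ m z)) (ψ m z) := h4.comp _ h3
  have h6 : HasDerivAt (ψ m ∘ g) 1 (ψ m z) := by
    refine (hasDerivAt_id (ψ m z)).congr_of_eventuallyEq ?_
    filter_upwards [isOpen_ball.mem_nhds (mem_ball_self hs)] with x hx
    exact (hg1 x hx).2
  have h7 := h5.unique h6
  intro h0
  rw [h0, zero_mul] at h7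
  exact zero_ne_one h7

theorem Resolves.crit {Q : ℂ → ℂ} {ρ : ℝ} {ψ : ℕ → ℂ → ℂ} (hQ : FB Q)
    (h : Resolves {z | ‖z‖ < 1 ∧ deriv Q z = 0} ρ ψ) (m : ℕ) {z : ℂ} (hz : ‖z‖ < 1)
    (h0 : deriv (Q ∘ ψ m) z = 0) : ψ m z ∈ {z | ‖z‖ < 1 ∧ deriv Q z = 0} := by
  by_contra hcon
  have h1 : ‖ψ m z‖ < 1 := (h.fb m).norm_lt_one hz
  have h2 := h.deriv_ne (Or.inr hQ.crit_finite) m hz hcon
  rw [deriv_comp z (hQ.differentiableAt h1.le) ((h.fb m).differentiableAt hz.le)] at h0
  rcases mul_eq_zero.1 h0 with h3 | h3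
  · exact hcon ⟨h1, h3⟩
  · exact h2 h3

end Pool.Agent.H5.BP
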