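import Pool.Agent.H5.BP.Main
import Pool.Agent.H5.BP.Final
import Pool.Agent.H5.BP.Fun
import Pool.Agent.H5.BP.Harn
import Pool.Agent.H18.BP.Step
import Pool.Agent.H27.BP.Beta
import Pool.Agent.H27.BP.Near
import Pool.Agent.H27.BP.Seq
import Pool.Agent.H30.BP.Mass
import Pool.Agent.H40.BP.Bla
import Pool.Agent.H40.BP.Pert
import Pool.Agent.H50.BP.Unif
import Pool.Agent.H81.BP.Rad
import Pool.Agent.H93.BP.Avg
import Pool.Agent.H93.BP.Trunc
import Pool.Agent.H93.BP.Stab
import Pool.Agent.H95.BP.Fac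

set_option autoImplicit false

namespace Pool.Agent.H5.BP

theorem t_fac : S_fac := Pool.Agent.H95.BP.t_fac
theorem t_avg : S_avg := Pool.Agent.H93.BP.avg
theorem t_comp : S_comp := Pool.Agent.H93.BP.comp t_fac t_avg
theorem t_U : S_U := Pool.Agent.H93.BP.mono t_fac t_avg
theorem t_beta : S_beta := Pool.Agent.H27.BP.beta
theorem t_near : S_near := Pool.Agent.H27.BP.near
theorem t_seq : S_seq := Pool.Agent.H27.BP.seq t_beta t_near
theorem t_rad : S_rad := Pool.Agent.H81.BP.t_rad
theorem t_harn : S_harn := harn t_fac t_avg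
theorem t_trunc : S_trunc := Pool.Agent.H93.BP.trunc t_fac
theorem t_unif : S_unif := Pool.Agent.H50.BP.t_unif t_rad t_harn t_trunc t_U
theorem t_pert : S_pert := Pool.Agent.H40.BP.Pert.pert
theorem t_mass : S_mass := Pool.Agent.H30.BP.mass t_fac t_comp t_U t_unif
theorem t_stab : S_stab := Pool.Agent.H93.BP.stab t_U
theorem t_step : S_step := Pool.Agent.H18.BP.step t_pert t_seq t_near t_mass t_stab t_U
theorem t_init : S_init := Pool.Agent.H18.BP.init t_beta t_seq
theorem t_fun : S_fun := fn t_step t_init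
theorem t_bla : S_bla := Pool.Agent.H40.BP.bla

theorem t_final : S_final := final t_fun t_bla

end Pool.Agent.H5.BP
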