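import Pool.Agent.H5.BP.Stm

set_option autoImplicit false

namespace Pool.Agent.H5.BP

open Complex Metric Set Filter Topology

/-- E0 (local part of E). `H + s k` has simple critical points with distinct critical values near the
finite set `Z` of critical points of `H`, for all small `s > 0`.
Proof. Near `p ∈ Z`: `H' = (z-p)^n h`, `h p ≠ 0`, `n ≥ 1`; `H - H p = (z-p)^(n+1) g`, so
`H - H p = (z-p) μ H'` with `μ = g/h` analytic at `p`, `μ(p) = 1/(n+1)`. At a zero `z` of `H' + s k'`: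
`H z + s k z = H p + s L z`, `L = k - (z-p) μ k'`, `L' p = k' p * n/(n+1) ≠ 0`, `L p = k p`: `L` is injective
near `p`; for `p ≠ q` in `Z` with `H p = H q` the sets `L_p(V_p)`, `L_q(V_q)` are disjoint; for `H p ≠ H q` take
`s` small. Simple: `z ≠ p`, and `H'' + s k'' = 0`, `H' + s k' = 0` give
`k'' z * (z-p) = k' z * (n + (z-p) h' z / h z)`, false near `p`. -/
def S_gen : Prop := ∀ (H k : ℂ → ℂ) (Z : Set ℂ), Z.Finite →
  (∀ p ∈ Z, AnalyticAt ℂ H p ∧ AnalyticAt ℂ k p ∧ deriv H p = 0 ∧ deriv k p ≠ 0 ∧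
    ¬ ∀ᶠ z in 𝓝 p, deriv H z = 0) →
  (∀ p ∈ Z, ∀ q ∈ Z, k p = k q → p = q) →
  ∃ V : Set ℂ, IsOpen V ∧ Z ⊆ V ∧ ∃ s₀ > (0 : ℝ), ∀ s : ℝ, 0 < s → s < s₀ →
    (∀ z ∈ V, deriv H z + s * deriv k z = 0 → deriv (deriv H) z + s * deriv (deriv k) z ≠ 0) ∧
    (∀ z ∈ V, ∀ w ∈ V, deriv H z + s * deriv k z = 0 → deriv H w + s * deriv k w = 0 →
      H z + s * k z = H w + s * k w → z = w)

end Pool.Agent.H5.BP
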