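import Mathlib

/-!
# An indestructible Blaschke product which is not maximal: definitions and fixed statements

Plan. `F` is a limit of finite Blaschke products `P_k` fixing `0` whose critical points tend to the unit
circle, so `F' ≠ 0` everywhere; `0 < |F'(0)| < 1`, so `F` is not an automorphism; and all
`(F - a)/(1 - ā F)` are Blaschke products because no mass of the `a`-points of the `P_k` is lost.
-/

set_option autoImplicit false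

namespace Pool.Agent.H5.BP

open Complex Metric Set Filter Topology

/-- The Blaschke factor `(z - a)/(1 - ā z)`. -/
noncomputable def tau (a z : ℂ) : ℂ := (z - a) / (1 - (starRingEnd ℂ) a * z)

/-- A finite Blaschke product fixing `0` (abstractly): analytic on a neighbourhood of the closed unit
disk, unimodular on the unit circle, `f 0 = 0`. -/
structure FB (f : ℂ → ℂ) : Prop where
  an : AnalyticOnNhd ℂ f (closedBall 0 1)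
  uni : ∀ z, ‖z‖ = 1 → ‖f z‖ = 1
  zero : f 0 = 0

/-- `U r a f` is the average of `-log |τ_a ∘ f|` over the circle `|z| = r`. -/
noncomputable def U (r : ℝ) (a : ℂ) (f : ℂ → ℂ) : ℝ :=
  Real.circleAverage (fun z => -Real.log ‖tau a (f z)‖) 0 r

/-! ### Module A: finite Blaschke products -/

/-- A1 (factorisation). `τ_a ∘ f` is a finite product of Blaschke factors.
Proof: `τ_a ∘ f` is analytic on a neighbourhood of the closed disk, unimodular on the circle, with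
finitely many zeros, all in the open disk; divide by the product of the `τ_w`; the quotient is
zero-free and unimodular on the circle, so constant by the maximum principle for it and its inverse. -/
def S_fac : Prop := ∀ f : ℂ → ℂ, FB f → ∀ a : ℂ, ‖a‖ < 1 → ∃ (Z : Multiset ℂ) (l : ℂ),
  ‖l‖ = 1 ∧ (∀ w ∈ Z, ‖w‖ < 1) ∧ ∀ z, ‖z‖ ≤ 1 → tau a (f z) = l * (Z.map fun w => tau w z).prod

/-- A2 (circle averages). The average of `-log |τ_w|` over `|z| = r < 1` is `-log (max r |w|)`. -/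
def S_avg : Prop := ∀ (Z : Multiset ℂ) (l : ℂ) (g : ℂ → ℂ), ‖l‖ = 1 → (∀ w ∈ Z, ‖w‖ < 1) →
  (∀ z, ‖z‖ < 1 → g z = l * (Z.map fun w => tau w z).prod) → ∀ r : ℝ, 0 < r → r < 1 →
  Real.circleAverage (fun z => -Real.log ‖g z‖) 0 r =
    (Z.map fun w => -Real.log (max r ‖w‖)).sum

/-- A3 (composition). -/
def S_comp : Prop := ∀ (Q ψ : ℂ → ℂ) (a l : ℂ) (Z : Multiset ℂ), FB Q → FB ψ → ‖a‖ < 1 → ‖l‖ = 1 →
  (∀ w ∈ Z, ‖w‖ < 1) → (∀ z, ‖z‖ ≤ 1 → tau a (Q z) = l * (Z.map fun w => tau w z).prod) →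
  ∀ r : ℝ, 0 < r → r < 1 → U r a (Q ∘ ψ) = (Z.map fun w => U r w ψ).sum

/-- A4. `U` is nonnegative, nonincreasing in `r`, and at most `log (1/|a|)`. -/
def S_U : Prop := ∀ (f : ℂ → ℂ) (a : ℂ), FB f → ‖a‖ < 1 →
  (∀ r r' : ℝ, 0 < r → r ≤ r' → r' < 1 → U r' a f ≤ U r a f) ∧
  (∀ r : ℝ, 0 < r → r < 1 → 0 ≤ U r a f) ∧
  (a ≠ 0 → ∀ r : ℝ, 0 < r → r < 1 → U r a f ≤ -Real.log ‖a‖)

/-! ### Module B: osculation -/

/-- B1. The map of degree two branched over `c`: `β = τ_{-c} ∘ (y ↦ y²) ∘ τ_{-s} ∘ (z ↦ ω z)` with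
`s² = -c`, `|ω| = 1`, `ω s > 0`; then `β(0) = 0`, `β'(0) = 2√|c|/(1+|c|)`, and a holomorphic map `φ`
of a disk to `𝔻 ∖ {c}` lifts through `β`, with prescribed value at one point (take a square root of
the zero-free function `τ_c ∘ φ`). -/
def S_beta : Prop := ∀ c : ℂ, 0 < ‖c‖ → ‖c‖ < 1 → ∃ β : ℂ → ℂ, FB β ∧
  deriv β 0 = ((2 * √‖c‖ / (1 + ‖c‖) : ℝ) : ℂ) ∧
  (∀ z, ‖z‖ < 1 → deriv β z = 0 → β z = c) ∧
  (∀ z, ‖z‖ < 1 → deriv β z = 0 → ‖z‖ = √‖c‖ ∧ deriv (deriv β) z ≠ 0) ∧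
  ∀ (x₀ : ℂ) (s : ℝ) (φ : ℂ → ℂ), DifferentiableOn ℂ φ (ball x₀ s) →
    (∀ x ∈ ball x₀ s, ‖φ x‖ < 1 ∧ φ x ≠ c) → ∀ x₁ ∈ ball x₀ s, ∀ z, ‖z‖ < 1 → β z = φ x₁ →
      ∃ φ' : ℂ → ℂ, DifferentiableOn ℂ φ' (ball x₀ s) ∧
        (∀ x ∈ ball x₀ s, ‖φ' x‖ < 1 ∧ β (φ' x) = φ x) ∧ φ' x₁ = z

/-- The sequence `ψ` resolves the finite set `A ⊂ {ρ ≤ |z| < 1}`: finite Blaschke products with
positive derivative at `0`, with inverse branches on all disks of `𝔻 ∖ A` through all points, and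
such that the preimages of `A` tend to the circle. -/
structure Resolves (A : Set ℂ) (ρ : ℝ) (ψ : ℕ → ℂ → ℂ) : Prop where
  fb : ∀ m, FB (ψ m)
  der : ∀ m, ∃ d : ℝ, deriv (ψ m) 0 = (d : ℂ) ∧ ρ ≤ d ∧ d ≤ 1
  inv : ∀ (m : ℕ) (x₀ : ℂ) (s : ℝ), ball x₀ s ⊆ ball 0 1 → (∀ x ∈ ball x₀ s, x ∉ A) →
    ∀ z, ‖z‖ < 1 → ψ m z ∈ ball x₀ s → ∃ g : ℂ → ℂ, DifferentiableOn ℂ g (ball x₀ s) ∧
      (∀ x ∈ ball x₀ s, ‖g x‖ < 1 ∧ ψ m (g x) = x) ∧ g (ψ m z) = z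
  far : ∀ ρ' < (1 : ℝ), ∃ m₀, ∀ m ≥ m₀, ∀ z, ‖z‖ < 1 → ψ m z ∈ A → ρ' < ‖z‖
  lim : ∃ ψ' : ℂ → ℂ, TendstoLocallyUniformlyOn ψ ψ' atTop (ball 0 1)

/-- B2. Proof: `ψ_{m+1} = ψ_m ∘ β_m` with `β_m` the map of B1 for a point `c_m` of smallest modulus
`t_m` of the finite set `ψ_m⁻¹(A)`. `inv` by induction with the lifting property of B1 (the branch
`g` of `ψ_m` avoids `c_m` because `ψ_m(c_m) ∈ A`); `inv` on `ball 0 ρ` at `0` and the Schwarz lemma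
give `ψ_m'(0) ≥ ρ`; `ψ_m'(0) = ∏ 2√t_j/(1+t_j)` with `t_j` nondecreasing, so `t_j → 1`;
`lim` by `|β_j z - z| ≤ (1 - β_j'(0)) (1+|z|)/(1-|z|)` and `∑ (1 - β_j'(0)) < ∞`. -/
def S_seq : Prop := ∀ (A : Set ℂ) (ρ : ℝ), A.Finite → 0 < ρ → ρ < 1 →
  (∀ z ∈ A, ρ ≤ ‖z‖ ∧ ‖z‖ < 1) → ∃ ψ : ℕ → ℂ → ℂ, Resolves A ρ ψ

/-- B3 (near identity). -/
def S_near : Prop := ∀ (f : ℂ → ℂ) (ρ d : ℝ), FB f → deriv f 0 = (d : ℂ) → ρ ≤ d → d ≤ 1 → 0 < ρ →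
  ∀ z, ‖z‖ < 1 → ‖f z - z‖ ≤ 2 * (1 - ρ) / (1 - ‖z‖)

/-! ### Module C: a good radius -/

/-- C. For every `η > 0` there is `r₀ < 1` such that every holomorphic `f : 𝔻 → 𝔻` has a radius
`s ≤ r₀` on which the mean square of `(1 - s²) |f'|` is at most `η`.
Proof: `f = ∑ aₙ zⁿ`, `∑ |aₙ|² ≤ 1`, the mean square of `f'` on `|z| = s` is `∑ n²|aₙ|² s^(2n-2)`, and
`∑_j (1 - s_j²)² n² s_j^(2n-2) ≤ C` for `s_j = 1 - 2^{-j}`; so one of the first `J` radii has mean at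
most `C/J`. -/
def S_rad : Prop := ∀ η : ℝ, 0 < η → ∃ r₀ : ℝ, 1 / 2 ≤ r₀ ∧ r₀ < 1 ∧ ∀ f : ℂ → ℂ,
  DifferentiableOn ℂ f (ball 0 1) → (∀ z, ‖z‖ < 1 → ‖f z‖ < 1) →
  ∃ s : ℝ, 1 / 2 ≤ s ∧ s ≤ r₀ ∧
    Real.circleAverage (fun z => ((1 - s ^ 2) * ‖deriv f z‖) ^ 2) 0 s ≤ η

/-! ### Module D: no loss of mass away from `A` -/

/-- D1 (Harnack). For `z ∈ ψ_m⁻¹(w)` let `g` be the branch on `ball w t`, `g w = z`. The zeros of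
`τ_w ∘ ψ_m` are simple, and `z ↦ g(w')` is an injection to the zeros of `τ_w' ∘ ψ_m` (two branches
with the same value at `w'` agree near `w'`, so everywhere). By Schwarz-Pick
`|τ_{g(w)} g(w')| ≤ |w'-w|/t ≤ 1/2 =: λ`, so `1 - |g(w')| ≥ (1 - |g(w)|)(1-λ)/(1+λ)`, and
`-log max(s,|g(w)|) ≤ 2 (1 - max(s,|g(w)|)) ≤ 6 (1 - max(s,|g(w')|)) ≤ -6 log max(s,|g(w')|)`. Use A1, A2. -/
def S_harn : Prop := ∀ (A : Set ℂ) (ρ : ℝ) (ψ : ℕ → ℂ → ℂ), Resolves A ρ ψ →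
  ∀ (m : ℕ) (w w' : ℂ) (t s : ℝ), 0 < t → ball w t ⊆ ball 0 1 → (∀ x ∈ ball w t, x ∉ A) →
  ‖w' - w‖ ≤ t / 2 → 1 / 2 ≤ s → s < 1 → U s w (ψ m) ≤ 6 * U s w' (ψ m)

/-- D2 (truncation). If `U s w ψ ≤ 6 U s w' ψ` for all `w'` with `|τ_w w'| = δ`, then
`U s w ψ ≤ 6 * average of min (-log|τ_w ψ|) (log 1/δ)`. Proof: the circle is
`w'_φ = τ_{-w}(δ e^{iφ})` and `|τ_{w'_φ}(x)| = |τ_{δ e^{iφ}}(τ_w x)|`; the average over `φ` of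
`-log|y - δ e^{iφ}| + log|1 - δ e^{-iφ} y|` is `min (-log|y|) (log 1/δ)` for `|y| < 1` (circle average of
`log|· - y|`, symmetric); exchange the two averages (Tonelli for nonnegative functions). -/
def S_trunc : Prop := ∀ (f : ℂ → ℂ) (w : ℂ) (s δ : ℝ), FB f → ‖w‖ < 1 → 0 < s → s < 1 → 0 < δ → δ < 1 →
  (∀ w' : ℂ, ‖w'‖ < 1 → ‖tau w w'‖ = δ → U s w f ≤ 6 * U s w' f) →
  U s w f ≤ 6 * Real.circleAverage (fun z => min (-Real.log ‖tau w (f z)‖) (-Real.log δ)) 0 s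

/-- D. Let `ψ` resolve `A`, `K ⊂ 𝔻 ∖ A` compact, `ε > 0`. There is `r < 1` with `U r w (ψ m) ≤ ε` for
all `m` and all `w ∈ K`.
Proof. Let `2δ` be smaller than the distance of `K` to `A ∪ 𝕋` (`δ` small pseudo-hyperbolic radius, so
that the circle `|τ_w| = δ` is in the ball `N = ball w s ⊂ 𝔻 ∖ A`).
(1) = S_harn: `U s w ψ_m ≤ 6 U s w' ψ_m` for `1/2 ≤ s < 1`, `|w' - w| ≤ t/2`, `ball w t ⊆ 𝔻 ∖ A`.
(2) = S_trunc: average over `w'` on the circle `|τ_w w'| = δ`: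
`U s w ψ_m ≤ 6 * circleAverage (min (-log|τ_w ψ_m|) (log 1/δ)) 0 s`.
(3) At the good radius `s` of C the last average is at most `ε/6`: pointwise (off finitely many points),
with `C = log 1/δ`, `min (-log|τ_w ψ_m|) C ≤ ε' + (C / log(1/δ')) ∑_{c ∈ A} (-log|τ_c ψ_m|) +
(C/κ²) ((1-s²)|ψ_m'|)²`: the first term if `|ψ_m|` is near `1`, the second if some `|τ_c ψ_m| < δ'`, the
third otherwise, because of `|ψ_m'(z)| (1-|z|²) ≥ κ` = a lower bound of `dist(ψ_m(z), A ∪ 𝕋)`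
(Schwarz-Pick for the inverse branch on `ball (ψ_m z) κ`); the averages are at most `ε'`,
`(C/log(1/δ')) ∑ log(1/|c|)` (A4), `(C/κ²) η`. (4) `U` is nonincreasing in `r` (A4). -/
def S_unif : Prop := ∀ (A : Set ℂ) (ρ : ℝ) (ψ : ℕ → ℂ → ℂ), A.Finite → 0 < ρ → ρ < 1 →
  (∀ z ∈ A, ρ ≤ ‖z‖ ∧ ‖z‖ < 1) → Resolves A ρ ψ → ∀ K : Set ℂ, IsCompact K →
  (∀ w ∈ K, ‖w‖ < 1 ∧ w ∉ A) → ∀ ε : ℝ, 0 < ε →
  ∃ r : ℝ, 0 < r ∧ r < 1 ∧ ∀ m, ∀ w ∈ K, U r w (ψ m) ≤ ε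

/-! ### Module E: perturbation to distinct critical values -/

/-- All critical points of `Q` in `𝔻` are simple and have distinct critical values. -/
def Generic (Q : ℂ → ℂ) : Prop :=
  (∀ z, ‖z‖ < 1 → deriv Q z = 0 → deriv (deriv Q) z ≠ 0) ∧
  ∀ z w, ‖z‖ < 1 → ‖w‖ < 1 → deriv Q z = 0 → deriv Q w = 0 → Q z = Q w → z = w

/-- E. Finite Blaschke products with simple critical points and distinct critical values are dense.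
Proof. Choose `ζ` on the circle with `P ζ = 1`, `q = (1 - P)/(ζ - z)` (removable at `ζ`),
`Q_s = (P + s z q)/(1 + s ζ q)`, `s > 0` small. With `H = (1+P)/(1-P)`, `k = (ζ+z)/(ζ-z)`,
`H_s = H + s k` one has `Q_s = (H_s - (1+s))/(H_s + (1+s))` on `𝔻`. Critical points of `Q_s` in `𝔻`
are the zeros of `H' + s k'`, critical values correspond to values of `H_s`. For `s → 0` they are
near the (finitely many) critical points `p` of `P` in `𝔻` (on the circle `|P'| ≥ 1`). Near `p`,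
`H = v + (z-p)^(n+1) g`, so `H - v = (z-p) μ(z) H'` with `μ` analytic, `μ(p) = 1/(n+1)`; at a critical
point of `H_s`: `H_s = v + s L(z)`, `L = k - (z-p) μ k'`, `L'(p) = k'(p) n/(n+1) ≠ 0`: so `L` is
injective near `p`, `L(p) = k(p)`, `k` injective. Double critical points: multiply `E' = 0` by `z - p`. -/
def S_pert : Prop := ∀ (P : ℂ → ℂ) (ρ η : ℝ), FB P → ρ < 1 → 0 < η →
  (∀ z, ‖z‖ < 1 → deriv P z = 0 → ρ < ‖z‖) → ∃ Q : ℂ → ℂ, FB Q ∧ Generic Q ∧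
    (∀ z, ‖z‖ ≤ 1 → ‖Q z - P z‖ ≤ η) ∧ (∀ z, ‖z‖ < 1 → deriv Q z = 0 → ρ < ‖z‖)

/-! ### Module F: the masses of `Q ∘ ψ_m` -/

/-- F. Proof: `A = crit Q` is finite. There is `s > 0` such that no three distinct points of the
`s`-neighbourhood of `A` have the same `Q`-value (distinct critical values; near `c ∈ A`,
`Q - Q c = χ²` with `χ` injective). For `a` not a critical value the zeros of `τ_a ∘ Q` are simple; at most two of them are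
in the neighbourhood, each contributing at most `log 1/(ρ - s)` (A4); the others, at most `deg Q`
of them, are in a compact subset of `𝔻 ∖ A`: D. -/
def S_mass : Prop := ∀ (Q : ℂ → ℂ) (ρ ε : ℝ) (ψ : ℕ → ℂ → ℂ), FB Q → Generic Q → 0 < ρ → ρ < 1 →
  0 < ε → ε < 1 → (∀ z, ‖z‖ < 1 → deriv Q z = 0 → ρ < ‖z‖) →
  Resolves {z | ‖z‖ < 1 ∧ deriv Q z = 0} ρ ψ → -2 * Real.log ρ < ε →
  ∃ r : ℝ, 0 < r ∧ r < 1 ∧ ∀ m, ∀ a : ℂ, ‖a‖ ≤ 1 - ε →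
    (∀ z, ‖z‖ < 1 → Q z = a → deriv Q z ≠ 0) → U r a (Q ∘ ψ m) ≤ ε

/-! ### Module G: the inductive step -/

/-- `Good P R η ε`: every holomorphic `g : 𝔻 → 𝔻` that is `η`-close to `P` on `|z| ≤ R` has
`U r a g ≤ ε` for some `r ∈ (1 - ε, R]`, for every `|a| ≤ 1 - ε`. -/
def Good (P : ℂ → ℂ) (R η ε : ℝ) : Prop :=
  ∀ g : ℂ → ℂ, DifferentiableOn ℂ g (ball 0 1) → (∀ z, ‖z‖ < 1 → ‖g z‖ < 1) →
    (∀ z, ‖z‖ ≤ R → ‖g z - P z‖ ≤ η) → ∀ a : ℂ, ‖a‖ ≤ 1 - ε → ∃ r, 1 - ε < r ∧ r ≤ R ∧ U r a g ≤ ε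

/-- G1 (stability). If `f_m → f` locally uniformly, `f` not constant, and `U r₁ a (f_m) ≤ ε/2` for
all `m` and all `|a| ≤ 1 - ε` (`r₁ < R < 1`) outside a finite set, then there are `η > 0`, `m₀` with
`Good (f m) R η ε` for `m ≥ m₀`.
Proof: `a ↦ sup_{r' ∈ [r₁,R]} min_{|z|=r'} |f z - a|` is continuous and positive on the closed disk, so
it is `≥ κ > 0`. For given `a` take such an `r'` and `a'` near `a` outside the finite set; on `|z| = r'` one has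
`|f_m - a'| ≥ κ/2`, `|g - a| ≥ κ/2`, and `|log|τ_a g| - log|τ_a' f_m||` is small. Finally
`U r' a' (f_m) ≤ U r₁ a' (f_m)` (A4). -/
def S_stab : Prop := ∀ (f : ℕ → ℂ → ℂ) (f' : ℂ → ℂ) (r₁ R ε : ℝ) (B : Set ℂ), (∀ m, FB (f m)) →
  TendstoLocallyUniformlyOn f f' atTop (ball 0 1) → deriv f' 0 ≠ 0 → 0 < r₁ → r₁ < R → R < 1 →
  0 < ε → ε < 1 → 1 - ε < r₁ → B.Finite →
  (∀ m, ∀ a : ℂ, ‖a‖ ≤ 1 - ε / 2 → a ∉ B → U r₁ a (f m) ≤ ε / 2) →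
  ∃ η > 0, ∃ m₀, ∀ m ≥ m₀, Good (f m) R η ε

/-- G2 (the step). -/
def S_step : Prop := ∀ R η ε : ℝ, 0 < R → R < 1 → 0 < η → 0 < ε → ε < 1 → ∃ ρ < (1 : ℝ), ∀ P : ℂ → ℂ,
  FB P → (∀ z, ‖z‖ < 1 → deriv P z = 0 → ρ < ‖z‖) →
  ∃ R' η' : ℝ, 1 - ε < R' ∧ R' < 1 ∧ 0 < η' ∧ ∀ ρ' < (1 : ℝ), ∃ P' : ℂ → ℂ, FB P' ∧
    (∀ z, ‖z‖ ≤ R → ‖P' z - P z‖ ≤ η) ∧ (∀ z, ‖z‖ < 1 → deriv P' z = 0 → ρ' < ‖z‖) ∧
    Good P' R' η' ε

/-- G3 (start): `P = β ∘ ψ_m` for `β` of B1 with `|c| = 1/16`. -/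
def S_init : Prop := ∀ ρ < (1 : ℝ), ∃ P : ℂ → ℂ, FB P ∧ (∀ z, ‖z‖ < 1 → deriv P z = 0 → ρ < ‖z‖) ∧
  1 / 9 ≤ ‖deriv P 0‖ ∧ ‖deriv P 0‖ ≤ 1 / 2

/-! ### Module H: the limit function -/

/-- H. Proof: iterate G2 with budgets: state `(P_n, R_n, b_n)`, `|P_{n+1} - P_n| ≤ b_n/2` on
`|z| ≤ R_n`, `R_{n+1} = max R_n R'`, `b_{n+1} = min (b_n/2) η'`, `ε_n → 0`, start with `R_0 = 1/2`,
`b_0 = 1/64`; the limit `F` is `b_n`-close to `P_n` on `|z| ≤ R_n`. `F' ≠ 0` by Hurwitz. -/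
def S_fun : Prop := ∃ F : ℂ → ℂ, DifferentiableOn ℂ F (ball 0 1) ∧ (∀ z, ‖z‖ < 1 → ‖F z‖ < 1) ∧
  F 0 = 0 ∧ (∀ z, ‖z‖ < 1 → deriv F z ≠ 0) ∧ ‖deriv F 0‖ < 1 ∧
  ∀ a : ℂ, ‖a‖ < 1 → ∀ ε > (0 : ℝ), ∀ r₀ < (1 : ℝ), ∃ r, r₀ < r ∧ 0 < r ∧ r < 1 ∧ U r a F ≤ ε

/-! ### Module I: Blaschke products -/

/-- The normalised Blaschke factor `(|a|/a) (a - z)/(1 - ā z)`. -/
noncomputable def bfac (a z : ℂ) : ℂ := ‖a‖ / a * ((a - z) / (1 - (starRingEnd ℂ) a * z))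

/-- `f` is a Blaschke product (on `𝔻`): `f z = e^{iθ} z^k ∏ (|a_i|/a_i) (a_i - z)/(1 - ā_i z)` with
finitely or infinitely many `a_i ∈ 𝔻 ∖ {0}`, `∑ (1 - |a_i|) < ∞`. -/
def IsBlaschke (f : ℂ → ℂ) : Prop :=
  ∃ (θ : ℝ) (k : ℕ) (ι : Type) (a : ι → ℂ), (∀ i, a i ≠ 0 ∧ ‖a i‖ < 1) ∧
    (Summable fun i => 1 - ‖a i‖) ∧ ∀ z, ‖z‖ < 1 →
      (Multipliable fun i => bfac (a i) z) ∧
        f z = Complex.exp (θ * Complex.I) * z ^ k * ∏' i, bfac (a i) z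

/-- I (criterion). Proof: `G = z^k B h` with `B` the Blaschke product of the zeros, `|h| ≤ 1`
zero-free; `log |h(0)|` is the average of `log |h| ≥ log |G|` over the circles, so `|h(0)| = 1`. -/
def S_bla : Prop := ∀ G : ℂ → ℂ, DifferentiableOn ℂ G (ball 0 1) → (∀ z, ‖z‖ < 1 → ‖G z‖ < 1) →
  (∃ z, ‖z‖ < 1 ∧ G z ≠ 0) →
  (∀ ε > (0 : ℝ), ∀ r₀ < (1 : ℝ), ∃ r, r₀ < r ∧ 0 < r ∧ r < 1 ∧
    Real.circleAverage (fun z => -Real.log ‖G z‖) 0 r ≤ ε) → IsBlaschke G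

/-! ### The question -/

/-- `f` is an indestructible Blaschke product: `T ∘ f` is a Blaschke product for all conformal
automorphisms `T = c τ_b` (`|c| = 1`, `|b| < 1`) of `𝔻`. -/
def IsIndestructible (f : ℂ → ℂ) : Prop :=
  IsBlaschke f ∧ ∀ c b : ℂ, ‖c‖ = 1 → ‖b‖ < 1 → IsBlaschke fun z => c * tau b (f z)

/-- `C` (a multiplicity function on `𝔻`) is an `H^∞` critical set. -/
def IsCriticalSet (C : ℂ → ℕ) : Prop :=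
  ∃ f : ℂ → ℂ, DifferentiableOn ℂ f (ball 0 1) ∧ (∃ M : ℝ, ∀ z, ‖z‖ < 1 → ‖f z‖ ≤ M) ∧
    ∀ z, ‖z‖ < 1 → analyticOrderAt (deriv f) z = C z

/-- `f ∈ H^∞`, `‖f‖ ≤ 1`, `f' = 0` on `C` with multiplicities. -/
def Adm (C : ℂ → ℕ) (f : ℂ → ℂ) : Prop :=
  DifferentiableOn ℂ f (ball 0 1) ∧ (∀ z, ‖z‖ < 1 → ‖f z‖ ≤ 1) ∧
    ∀ z, ‖z‖ < 1 → (C z : ℕ∞) ≤ analyticOrderAt (deriv f) z

/-- `F` solves the extremal problem for `C`. -/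
def IsExtremal (C : ℂ → ℕ) (F : ℂ → ℂ) : Prop :=
  Adm C F ∧ ∀ f, Adm C f → (iteratedDeriv (C 0 + 1) f 0).re ≤ (iteratedDeriv (C 0 + 1) F 0).re

/-- `f` is a maximal Blaschke product: `f = T ∘ F_C`, `C` an `H^∞` critical set, `T` a conformal
automorphism. -/
def IsMaximal (f : ℂ → ℂ) : Prop :=
  ∃ C : ℂ → ℕ, IsCriticalSet C ∧ ∃ F, IsExtremal C F ∧ ∃ c b : ℂ, ‖c‖ = 1 ∧ ‖b‖ < 1 ∧
    ∀ z, ‖z‖ < 1 → f z = c * tau b (F z)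

/-- J (answer to Q1: no). -/
def S_main : Prop := ∃ f : ℂ → ℂ, IsIndestructible f ∧ ¬ IsMaximal f

end Pool.Agent.H5.BP
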